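import Mathlib
import Pool.Agent.Lib_helper1.PSF.R1

/-!
# PAT: patterns along the values of almost all polynomials (MP_892e4c_nt)

The sum over `n ≤ x` of `λ(f(n) + h(n)) Ψ_n(h(n + a_1), ..., h(n + a_s))` for almost all polynomials `h` of
degree at most `j` and height at most `H`, arbitrary bounded functions `Ψ_n`, in the range
`x^(2s+1) = o(H)`.  The coefficients are shifted by the multiples of the polynomial which vanishes at the
`2s+1` points where the argument must not see the shift.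
-/

set_option autoImplicit false

namespace Pool.Agent.PAT

open Pool.Agent.PS

/-- the value at the integer `m` of `h_0 + h_1 X + ... + h_j X^j` -/
def hv {j : ℕ} (h : Fin (j + 1) → ℤ) (m : ℤ) : ℤ := ∑ i, h i * m ^ (i : ℕ)

theorem Pv_eq (f : Polynomial ℤ) {j : ℕ} (h : Fin (j + 1) → ℤ) (n : ℕ) :
    Pv f h n = f.eval (n : ℤ) + hv h n := rfl

/-- the monic polynomial with the given roots -/
noncomputable def RP (L : List ℤ) : Polynomial ℤ :=
  (L.map (fun t => Polynomial.X - Polynomial.C t)).prod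

theorem RP_cons (t : ℤ) (L : List ℤ) : RP (t :: L) = (Polynomial.X - Polynomial.C t) * RP L := by
  simp [RP]

theorem RP_natDegree (L : List ℤ) : (RP L).natDegree ≤ L.length := by
  induction L with
  | nil => simp [RP]
  | cons t L ih =>
    rw [RP_cons]
    refine Polynomial.natDegree_mul_le.trans ?_
    rw [Polynomial.natDegree_X_sub_C, List.length_cons]
    omega

theorem RP_eval (L : List ℤ) (m : ℤ) : (RP L).eval m = (L.map (fun t => m - t)).prod := by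
  induction L with
  | nil => simp [RP]
  | cons t L ih =>
    rw [RP_cons, Polynomial.eval_mul, ih]
    simp

theorem RP_coeff (L : List ℤ) (N : ℤ) (hN : 0 ≤ N) (hL : ∀ t ∈ L, |t| ≤ N) (i : ℕ) :
    |(RP L).coeff i| ≤ (N + 1) ^ L.length := by
  induction L generalizing i with
  | nil =>
    simp only [RP, List.map_nil, List.prod_nil, List.length_nil, pow_zero]
    rw [Polynomial.coeff_one]
    split_ifs <;> simp
  | cons t L ih =>
    have ih' := fun i => ih (fun s hs => hL s (List.mem_cons_of_mem _ hs)) i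
    have ht : |t| ≤ N := hL t (by simp)
    have hp : (0 : ℤ) ≤ (N + 1) ^ L.length := by positivity
    rw [RP_cons, sub_mul, Polynomial.coeff_sub, Polynomial.coeff_C_mul, List.length_cons, pow_succ]
    have h1 : |(Polynomial.X * RP L).coeff i| ≤ (N + 1) ^ L.length := by
      cases i with
      | zero => simpa using hp
      | succ i => rw [Polynomial.coeff_X_mul]; exact ih' i
    have h2 : |t * (RP L).coeff i| ≤ N * (N + 1) ^ L.length := by
      rw [abs_mul]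
      exact mul_le_mul ht (ih' i) (abs_nonneg _) hN
    calc _ ≤ |(Polynomial.X * RP L).coeff i| + |t * (RP L).coeff i| := abs_sub _ _
      _ ≤ _ := by linarith

/-- the coefficients of `RP L` -/
noncomputable def cv (j : ℕ) (L : List ℤ) : Fin (j + 1) → ℤ := fun i => (RP L).coeff i

theorem cv_hv (j : ℕ) (L : List ℤ) (hL : L.length ≤ j) (m : ℤ) :
    hv (cv j L) m = (L.map (fun t => m - t)).prod := by
  rw [← RP_eval, Polynomial.eval_eq_sum_range' (n := j + 1)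
    (lt_of_le_of_lt (RP_natDegree L) (by omega)), Finset.sum_range]
  rfl

theorem cv_root (j : ℕ) {L : List ℤ} (hL : L.length ≤ j) {t : ℤ} (ht : t ∈ L) :
    hv (cv j L) t = 0 := by
  rw [cv_hv j L hL]
  apply List.prod_eq_zero
  rw [List.mem_map]
  exact ⟨t, ht, sub_self t⟩

/-- the shift of the coefficients by `k c` -/
def sT {j : ℕ} (c : Fin (j + 1) → ℤ) (k : ℕ) (h : Fin (j + 1) → ℤ) : Fin (j + 1) → ℤ :=
  fun i => h i + k * c i

theorem sT_inj {j : ℕ} (c : Fin (j + 1) → ℤ) (k : ℕ) : Function.Injective (sT c k) := by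
  intro h h' e
  funext i
  have := congrFun e i
  unfold sT at this
  linarith

theorem sT_hv {j : ℕ} (c : Fin (j + 1) → ℤ) (k : ℕ) (h : Fin (j + 1) → ℤ) (m : ℤ) :
    hv (sT c k h) m = hv h m + k * hv c m := by
  unfold hv sT
  rw [Finset.mul_sum, ← Finset.sum_add_distrib]
  refine Finset.sum_congr rfl fun i _ => ?_
  ring

theorem Iz_out (H : ℕ) (m : ℤ) : ((Iz H).filter (fun a => a + m ∉ Iz H)).card ≤ m.natAbs := by
  classical
  rcases le_total 0 m with hm | hm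
  · refine (Finset.card_le_card (t := Finset.Ioc ((H : ℤ) - m) H) ?_).trans (le_of_eq ?_)
    · intro a ha
      rw [Finset.mem_filter, mem_Iz, mem_Iz] at ha
      rw [Finset.mem_Ioc]
      omega
    · rw [Int.card_Ioc]
      omega
  · refine (Finset.card_le_card (t := Finset.Ico (-(H : ℤ)) (-(H : ℤ) - m)) ?_).trans
      (le_of_eq ?_)
    · intro a ha
      rw [Finset.mem_filter, mem_Iz, mem_Iz] at ha
      rw [Finset.mem_Ico]
      omega
    · rw [Int.card_Ico]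
      omega

theorem sT_out {j : ℕ} (H B k : ℕ) (c : Fin (j + 1) → ℤ) (hc : ∀ i, |c i| ≤ B) :
    ((bx j H).filter (fun h => sT c k h ∉ bx j H)).card ≤
      (j + 1) * (k * B) * (2 * H + 1) ^ j := by
  classical
  have h1 : (bx j H).filter (fun h => sT c k h ∉ bx j H) ⊆
      (Finset.univ : Finset (Fin (j + 1))).biUnion (fun i => (bx j H).filter
        (fun h => h i ∈ (Iz H).filter (fun a => a + k * c i ∉ Iz H))) := by
    intro h hh
    rw [Finset.mem_filter] at hh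
    obtain ⟨hb, ho⟩ := hh
    unfold bx at ho
    rw [Fintype.mem_piFinset] at ho
    push Not at ho
    obtain ⟨i, hi⟩ := ho
    rw [Finset.mem_biUnion]
    refine ⟨i, Finset.mem_univ _, ?_⟩
    rw [Finset.mem_filter, Finset.mem_filter]
    refine ⟨hb, ?_, hi⟩
    unfold bx at hb
    rw [Fintype.mem_piFinset] at hb
    exact hb i
  refine (Finset.card_le_card h1).trans (Finset.card_biUnion_le.trans ?_)
  have h2 : ∀ i : Fin (j + 1), ((bx j H).filter
      (fun h => h i ∈ (Iz H).filter (fun a => a + k * c i ∉ Iz H))).card ≤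
        (k * B) * (2 * H + 1) ^ j := by
    intro i
    refine (shb_card j H i _).trans (Nat.mul_le_mul_right _ ((Iz_out H _).trans ?_))
    rw [Int.natAbs_mul, Int.natAbs_natCast]
    refine Nat.mul_le_mul_left _ ?_
    have := hc i
    rw [Int.abs_eq_natAbs] at this
    exact_mod_cast this
  refine (Finset.sum_le_sum fun i _ => h2 i).trans (le_of_eq ?_)
  rw [Finset.sum_const, Finset.card_univ, Fintype.card_fin, smul_eq_mul]
  ring

theorem sT_diff {j : ℕ} (H B k : ℕ) (c : Fin (j + 1) → ℤ) (hc : ∀ i, |c i| ≤ B)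
    (F : (Fin (j + 1) → ℤ) → ℂ) (hF : ∀ h, ‖F h‖ ≤ 1) :
    ‖∑ h ∈ bx j H, F h - ∑ h ∈ bx j H, F (sT c k h)‖ ≤
      2 * (((j + 1 : ℕ) : ℝ) * (k * B) * (2 * (H : ℝ) + 1) ^ j) := by
  classical
  set E : Finset (Fin (j + 1) → ℤ) := (bx j H).image (sT c k) with hE
  have h1 : ∑ h ∈ bx j H, F (sT c k h) = ∑ h ∈ E, F h := by
    rw [hE, Finset.sum_image fun a _ b _ e => sT_inj c k e]
  have hcE : E.card = (bx j H).card := by
    rw [hE, Finset.card_image_of_injective _ (sT_inj c k)]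
  have h2 : (E \ bx j H).card ≤ (j + 1) * (k * B) * (2 * H + 1) ^ j := by
    have h3 : E \ bx j H ⊆
        ((bx j H).filter (fun h => sT c k h ∉ bx j H)).image (sT c k) := by
      intro g hg
      rw [Finset.mem_sdiff, hE, Finset.mem_image] at hg
      obtain ⟨⟨h, hh, e⟩, hg2⟩ := hg
      rw [Finset.mem_image]
      refine ⟨h, ?_, e⟩
      rw [Finset.mem_filter]
      refine ⟨hh, ?_⟩
      rw [e]
      exact hg2
    exact (Finset.card_le_card h3).trans (Finset.card_image_le.trans (sT_out H B k c hc))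
  have h4 : (bx j H \ E).card = (E \ bx j H).card := by
    have a1 := Finset.card_sdiff_add_card_inter (bx j H) E
    have a2 := Finset.card_sdiff_add_card_inter E (bx j H)
    rw [Finset.inter_comm] at a2
    omega
  rw [h1, ← Finset.sum_sdiff_sub_sum_sdiff]
  have b1 : ‖∑ h ∈ bx j H \ E, F h‖ ≤ ((E \ bx j H).card : ℝ) := by
    rw [← h4]
    calc _ ≤ ∑ h ∈ bx j H \ E, (1 : ℝ) := norm_sum_le_of_le _ fun h _ => hF h
      _ = _ := by simp
  have b2 : ‖∑ h ∈ E \ bx j H, F h‖ ≤ ((E \ bx j H).card : ℝ) := by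
    calc _ ≤ ∑ h ∈ E \ bx j H, (1 : ℝ) := norm_sum_le_of_le _ fun h _ => hF h
      _ = _ := by simp
  have b3 : ((E \ bx j H).card : ℝ) ≤
      ((j + 1 : ℕ) : ℝ) * (k * B) * (2 * (H : ℝ) + 1) ^ j := by
    exact_mod_cast h2
  calc _ ≤ ‖∑ h ∈ bx j H \ E, F h‖ + ‖∑ h ∈ E \ bx j H, F h‖ := norm_sub_le _ _
    _ ≤ _ := by linarith

/-- the average over the shifts -/
theorem sT_avg {j : ℕ} (H B K : ℕ) (hK : 1 ≤ K) (c : Fin (j + 1) → ℤ) (hc : ∀ i, |c i| ≤ B)
    (F : (Fin (j + 1) → ℤ) → ℂ) (hF : ∀ h, ‖F h‖ ≤ 1) :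
    ‖∑ h ∈ bx j H, F h‖ ≤ ∑ h ∈ bx j H, ‖∑ k ∈ Finset.range K, F (sT c k h)‖ / K +
      2 * (((j + 1 : ℕ) : ℝ) * (K * B) * (2 * (H : ℝ) + 1) ^ j) := by
  have hK0 : (0 : ℝ) < K := by exact_mod_cast hK
  set E : ℝ := 2 * (((j + 1 : ℕ) : ℝ) * (K * B) * (2 * (H : ℝ) + 1) ^ j) with hE
  set S : ℂ := ∑ h ∈ bx j H, F h with hS
  have h1 : ∀ k ∈ Finset.range K, ‖S - ∑ h ∈ bx j H, F (sT c k h)‖ ≤ E := by
    intro k hk
    refine (sT_diff H B k c hc F hF).trans ?_
    have hkK : (k : ℝ) ≤ K := by exact_mod_cast (Finset.mem_range.1 hk).le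
    rw [hE]
    gcongr
  have h2 : K * ‖S‖ ≤ ‖∑ k ∈ Finset.range K, ∑ h ∈ bx j H, F (sT c k h)‖ + K * E := by
    have h3 : (K : ℂ) * S = ∑ k ∈ Finset.range K, ∑ h ∈ bx j H, F (sT c k h) +
        ∑ k ∈ Finset.range K, (S - ∑ h ∈ bx j H, F (sT c k h)) := by
      rw [← Finset.sum_add_distrib]
      simp
    have h4 : ‖∑ k ∈ Finset.range K, (S - ∑ h ∈ bx j H, F (sT c k h))‖ ≤ K * E := by
      calc _ ≤ ∑ k ∈ Finset.range K, E := norm_sum_le_of_le _ h1
        _ = K * E := by simp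
    calc (K : ℝ) * ‖S‖ = ‖(K : ℂ) * S‖ := by rw [norm_mul, Complex.norm_natCast]
      _ ≤ _ := by
        rw [h3]
        exact (norm_add_le _ _).trans (add_le_add le_rfl h4)
  have h5 : ‖∑ k ∈ Finset.range K, ∑ h ∈ bx j H, F (sT c k h)‖ ≤
      K * ∑ h ∈ bx j H, ‖∑ k ∈ Finset.range K, F (sT c k h)‖ / K := by
    rw [Finset.sum_comm, Finset.mul_sum]
    refine norm_sum_le_of_le _ fun h _ => le_of_eq ?_
    rw [mul_div_cancel₀ _ hK0.ne']
  have h8 : K * ‖S‖ ≤ K * (∑ h ∈ bx j H, ‖∑ k ∈ Finset.range K, F (sT c k h)‖ / K + E) := by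
    rw [mul_add]
    linarith
  exact le_of_mul_le_mul_left h8 hK0

theorem pat_shift (f : Polynomial ℤ) {j : ℕ} (H B K : ℕ) (hK : 1 ≤ K) (c : Fin (j + 1) → ℤ)
    (hc : ∀ i, |c i| ≤ B) (G : (Fin (j + 1) → ℤ) → ℂ) (hG : ∀ h, ‖G h‖ ≤ 1)
    (hGT : ∀ h (k : ℕ), G (sT c k h) = G h) (m : ℕ) (q : ℤ) (hq : hv c m = q) :
    ‖∑ h ∈ bx j H, G h * (lz (Pv f h m) : ℂ)‖ ≤ ∑ h ∈ bx j H, bq q 0 K (Pv f h m) +
      2 * (((j + 1 : ℕ) : ℝ) * (K * B) * (2 * (H : ℝ) + 1) ^ j) := by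
  have hK0 : (0 : ℝ) < K := by exact_mod_cast hK
  refine (sT_avg H B K hK c hc (fun h => G h * (lz (Pv f h m) : ℂ)) (fun h => ?_)).trans
    (add_le_add ?_ le_rfl)
  · rw [norm_mul]
    exact mul_le_one₀ (hG h) (norm_nonneg _) (lz_norm _)
  · refine Finset.sum_le_sum fun h _ => ?_
    have h6 : ∑ k ∈ Finset.range K, G (sT c k h) * (lz (Pv f (sT c k h) m) : ℂ) =
        G h * ∑ k ∈ Finset.range K, ez (0 * k) * (lz (Pv f h m + q * k) : ℂ) := by
      rw [Finset.mul_sum]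
      refine Finset.sum_congr rfl fun k _ => ?_
      have e : Pv f (sT c k h) m = Pv f h m + q * k := by
        rw [Pv_eq, Pv_eq, sT_hv, hq]
        ring
      rw [hGT, zero_mul, ez_zero, one_mul, e]
    rw [h6, norm_mul]
    unfold bq
    gcongr
    exact mul_le_of_le_one_left (norm_nonneg _) (hG h)

/-- the points where the shift must vanish -/
def nodes {s : ℕ} (a : Fin s → ℤ) (n r : ℤ) : List ℤ :=
  n :: (List.ofFn (fun i => n + a i) ++ List.ofFn (fun i => n + r + a i))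

/-- the value of the shift at `n + r` -/
def pq {s : ℕ} (a : Fin s → ℤ) (r : ℤ) : ℤ := r * ((∏ i, (r - a i)) * ∏ i, (-a i))

theorem nodes_length {s : ℕ} (a : Fin s → ℤ) (n r : ℤ) : (nodes a n r).length = 2 * s + 1 := by
  unfold nodes
  simp
  ring

theorem nodes_prod {s : ℕ} (a : Fin s → ℤ) (n r : ℤ) :
    ((nodes a n r).map (fun t => n + r - t)).prod = pq a r := by
  unfold nodes pq
  rw [List.map_cons, List.prod_cons, List.map_append, List.prod_append, List.map_ofFn,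
    List.map_ofFn, List.prod_ofFn, List.prod_ofFn]
  have e1 : n + r - n = r := by ring
  rw [e1]
  congr 2
  · refine Finset.prod_congr rfl fun i _ => ?_
    simp only [Function.comp_apply]
    ring
  · refine Finset.prod_congr rfl fun i _ => ?_
    simp only [Function.comp_apply]
    ring

theorem nodes_abs {s : ℕ} (a : Fin s → ℤ) (n r N : ℤ) (hn : |n| ≤ N) (hnr : |n + r| ≤ N)
    (ha : ∀ i, |a i| ≤ N) : ∀ t ∈ nodes a n r, |t| ≤ 2 * N := by
  intro t ht
  have hN : 0 ≤ N := (abs_nonneg _).trans hn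
  unfold nodes at ht
  rw [List.mem_cons, List.mem_append, List.mem_ofFn, List.mem_ofFn] at ht
  rcases ht with rfl | ⟨i, rfl⟩ | ⟨i, rfl⟩
  · linarith
  · exact (abs_add_le _ _).trans (by linarith [ha i])
  · exact (abs_add_le _ _).trans (by linarith [ha i])

theorem pq_ne {s : ℕ} {a : Fin s → ℤ} (ha : ∀ i, a i ≠ 0) {r : ℤ} (hr : r ≠ 0)
    (hra : ∀ i, a i ≠ r) : pq a r ≠ 0 := by
  unfold pq
  refine mul_ne_zero hr (mul_ne_zero ?_ ?_)
  · rw [Finset.prod_ne_zero_iff]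
    intro i _ h
    exact hra i (by linarith)
  · rw [Finset.prod_ne_zero_iff]
    intro i _ h
    exact ha i (by linarith)

/-- the weighted values -/
noncomputable def py (f : Polynomial ℤ) {j s : ℕ} (a : Fin s → ℤ)
    (Ψ : ℕ → (Fin s → ℤ) → ℂ) (h : Fin (j + 1) → ℤ) (n : ℕ) : ℂ :=
  (lz (Pv f h (n + 1)) : ℂ) * Ψ (n + 1) (fun i => hv h (((n + 1 : ℕ) : ℤ) + a i))

theorem py_le (f : Polynomial ℤ) {j s : ℕ} (a : Fin s → ℤ) {Ψ : ℕ → (Fin s → ℤ) → ℂ}
    (hΨ : ∀ n v, ‖Ψ n v‖ ≤ 1) (h : Fin (j + 1) → ℤ) (n : ℕ) : ‖py f a Ψ h n‖ ≤ 1 := by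
  unfold py
  rw [norm_mul]
  exact mul_le_one₀ (lz_norm _) (norm_nonneg _) (hΨ _ _)

theorem py_sum (f : Polynomial ℤ) {j s : ℕ} (a : Fin s → ℤ) (Ψ : ℕ → (Fin s → ℤ) → ℂ)
    (h : Fin (j + 1) → ℤ) (x : ℕ) :
    ∑ n ∈ Finset.Icc 1 x, (lz (Pv f h n) : ℂ) * Ψ n (fun i => hv h ((n : ℤ) + a i)) =
      ∑ n ∈ Finset.range x, py f a Ψ h n := by
  have h1 : Finset.Icc 1 x = Finset.Ico 1 (x + 1) := by
    ext n
    rw [Finset.mem_Icc, Finset.mem_Ico]
    omega
  rw [h1, Finset.sum_Ico_eq_sum_range]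
  simp only [Nat.add_sub_cancel]
  refine Finset.sum_congr rfl fun n _ => ?_
  unfold py
  rw [add_comm 1 n]

theorem pat_one (f : Polynomial ℤ) {j s : ℕ} (a : Fin s → ℤ) (hj : 2 * s + 1 ≤ j)
    {Ψ : ℕ → (Fin s → ℤ) → ℂ} (hΨ : ∀ n v, ‖Ψ n v‖ ≤ 1) (x H n r K : ℕ) (hK : 1 ≤ K)
    (ha : ∀ i, |a i| ≤ x) (hn : n + 1 + r ≤ x) :
    ‖∑ h ∈ bx j H, py f a Ψ h n * (starRingEnd ℂ) (py f a Ψ h (n + r))‖ ≤
      ∑ h ∈ bx j H, bq (pq a r) 0 K (Pv f h (n + 1 + r)) +
        2 * (((j + 1 : ℕ) : ℝ) * (K * ((2 * x + 1) ^ (2 * s + 1) : ℕ)) *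
          (2 * (H : ℝ) + 1) ^ j) := by
  set L : List ℤ := nodes a ((n + 1 : ℕ) : ℤ) (r : ℤ) with hL
  have hLl : L.length ≤ j := by rw [hL, nodes_length]; exact hj
  set c : Fin (j + 1) → ℤ := cv j L with hcd
  have hc : ∀ i, |c i| ≤ (((2 * x + 1) ^ (2 * s + 1) : ℕ) : ℤ) := by
    intro i
    have h1 := RP_coeff L (2 * (x : ℤ)) (by positivity)
      (nodes_abs a _ _ (x : ℤ) (by rw [abs_of_nonneg (by positivity)]; exact_mod_cast (by omega))
        (by rw [abs_of_nonneg (by positivity)]; exact_mod_cast hn) ha) i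
    rw [hL, nodes_length] at h1
    rw [hcd]
    unfold cv
    push_cast
    exact h1
  have hroot : ∀ t ∈ L, ∀ (h : Fin (j + 1) → ℤ) (k : ℕ), hv (sT c k h) t = hv h t := by
    intro t ht h k
    rw [sT_hv, hcd, cv_root j hLl ht, mul_zero, add_zero]
  have hn0 : ((n + 1 : ℕ) : ℤ) ∈ L := by rw [hL]; unfold nodes; simp
  have hn1 : ∀ i, ((n + 1 : ℕ) : ℤ) + a i ∈ L := by
    intro i
    rw [hL]
    unfold nodes
    rw [List.mem_cons, List.mem_append, List.mem_ofFn]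
    exact Or.inr (Or.inl ⟨i, rfl⟩)
  have hn2 : ∀ i, ((n + 1 + r : ℕ) : ℤ) + a i ∈ L := by
    intro i
    rw [hL]
    unfold nodes
    rw [List.mem_cons, List.mem_append, List.mem_ofFn, List.mem_ofFn]
    refine Or.inr (Or.inr ⟨i, ?_⟩)
    push_cast
    ring
  set G : (Fin (j + 1) → ℤ) → ℂ := fun h =>
    (lz (Pv f h (n + 1)) : ℂ) * Ψ (n + 1) (fun i => hv h (((n + 1 : ℕ) : ℤ) + a i)) *
      (starRingEnd ℂ) (Ψ (n + 1 + r) (fun i => hv h (((n + 1 + r : ℕ) : ℤ) + a i))) with hGd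
  have hG : ∀ h, ‖G h‖ ≤ 1 := by
    intro h
    rw [hGd]
    beta_reduce
    rw [norm_mul, norm_mul, RCLike.norm_conj]
    exact mul_le_one₀ (mul_le_one₀ (lz_norm _) (norm_nonneg _) (hΨ _ _)) (norm_nonneg _) (hΨ _ _)
  have hGT : ∀ h (k : ℕ), G (sT c k h) = G h := by
    intro h k
    rw [hGd]
    beta_reduce
    rw [Pv_eq, Pv_eq, hroot _ hn0]
    simp only [hroot _ (hn1 _), hroot _ (hn2 _)]
  have hq : hv c ((n + 1 + r : ℕ) : ℤ) = pq a r := by
    rw [hcd, cv_hv j L hLl, hL]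
    have e : ((n + 1 + r : ℕ) : ℤ) = ((n + 1 : ℕ) : ℤ) + (r : ℤ) := by push_cast; ring
    rw [e]
    exact nodes_prod a _ _
  have h1 := pat_shift f H _ K hK c hc G hG hGT (n + 1 + r) (pq a r) hq
  have e1 : ∑ h ∈ bx j H, py f a Ψ h n * (starRingEnd ℂ) (py f a Ψ h (n + r)) =
      ∑ h ∈ bx j H, G h * (lz (Pv f h (n + 1 + r)) : ℂ) := by
    refine Finset.sum_congr rfl fun h _ => ?_
    rw [hGd]
    beta_reduce
    unfold py
    rw [map_mul, Complex.conj_ofReal, show n + r + 1 = n + 1 + r by ring]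
    ring
  rw [e1]
  exact h1

theorem pat_corr (f : Polynomial ℤ) {j s : ℕ} (a : Fin s → ℤ) (hj : 2 * s + 1 ≤ j)
    {Ψ : ℕ → (Fin s → ℤ) → ℂ} (hΨ : ∀ n v, ‖Ψ n v‖ ≤ 1) (x H r K : ℕ) (hK : 1 ≤ K)
    (ha : ∀ i, |a i| ≤ x) :
    ‖∑ n ∈ Finset.range (x - r), ∑ h ∈ bx j H,
      py f a Ψ h n * (starRingEnd ℂ) (py f a Ψ h (n + r))‖ ≤
      ∑ n ∈ Finset.Icc 1 x, ∑ h ∈ bx j H, bq (pq a r) 0 K (Pv f h n) +
        x * (2 * (((j + 1 : ℕ) : ℝ) * (K * ((2 * x + 1) ^ (2 * s + 1) : ℕ)) *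
          (2 * (H : ℝ) + 1) ^ j)) := by
  set E : ℝ := 2 * (((j + 1 : ℕ) : ℝ) * (K * ((2 * x + 1) ^ (2 * s + 1) : ℕ)) *
    (2 * (H : ℝ) + 1) ^ j) with hE
  have hE0 : 0 ≤ E := by positivity
  calc ‖∑ n ∈ Finset.range (x - r), ∑ h ∈ bx j H,
        py f a Ψ h n * (starRingEnd ℂ) (py f a Ψ h (n + r))‖
      ≤ ∑ n ∈ Finset.range (x - r), (∑ h ∈ bx j H, bq (pq a r) 0 K (Pv f h (n + 1 + r)) + E) :=
        norm_sum_le_of_le _ fun n hn => pat_one f a hj hΨ x H n r K hK ha (by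
          rw [Finset.mem_range] at hn
          omega)
    _ = ∑ n ∈ Finset.range (x - r), ∑ h ∈ bx j H, bq (pq a r) 0 K (Pv f h (n + 1 + r)) +
          ∑ n ∈ Finset.range (x - r), E := by
        rw [Finset.sum_add_distrib]
    _ ≤ _ := by
        gcongr ?_ + ?_
        · have e1 : ∑ n ∈ Finset.range (x - r), ∑ h ∈ bx j H,
                bq (pq a r) 0 K (Pv f h (n + 1 + r)) =
              ∑ n ∈ Finset.Ico (r + 1) (x + 1), ∑ h ∈ bx j H, bq (pq a r) 0 K (Pv f h n) := by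
            rw [Finset.sum_Ico_eq_sum_range, show x + 1 - (r + 1) = x - r by omega]
            refine Finset.sum_congr rfl fun n _ => ?_
            rw [show n + 1 + r = r + 1 + n by ring]
          rw [e1]
          refine Finset.sum_le_sum_of_subset_of_nonneg ?_ ?_
          · intro n hn
            rw [Finset.mem_Ico] at hn
            rw [Finset.mem_Icc]
            omega
          · intro n _ _
            exact Finset.sum_nonneg fun h _ => bq_nonneg _ _ _ _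
        · rw [Finset.sum_const, Finset.card_range, nsmul_eq_mul]
          have : ((x - r : ℕ) : ℝ) ≤ x := by exact_mod_cast Nat.sub_le x r
          gcongr

/-- the trivial bound -/
theorem pat_triv (f : Polynomial ℤ) {j s : ℕ} (a : Fin s → ℤ)
    {Ψ : ℕ → (Fin s → ℤ) → ℂ} (hΨ : ∀ n v, ‖Ψ n v‖ ≤ 1) (x H r : ℕ) :
    ‖∑ n ∈ Finset.range (x - r), ∑ h ∈ bx j H,
      py f a Ψ h n * (starRingEnd ℂ) (py f a Ψ h (n + r))‖ ≤
      x * (2 * (H : ℝ) + 1) ^ (j + 1) := by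
  have h1 : ∀ n ∈ Finset.range (x - r), ‖∑ h ∈ bx j H,
      py f a Ψ h n * (starRingEnd ℂ) (py f a Ψ h (n + r))‖ ≤ (2 * (H : ℝ) + 1) ^ (j + 1) := by
    intro n _
    calc _ ≤ ∑ h ∈ bx j H, (1 : ℝ) := norm_sum_le_of_le _ fun h _ => by
          rw [norm_mul, RCLike.norm_conj]
          exact mul_le_one₀ (py_le f a hΨ h n) (norm_nonneg _) (py_le f a hΨ h _)
      _ = _ := by
          rw [Finset.sum_const, nsmul_eq_mul, mul_one, bx_card]
          push_cast
          ring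
  refine (norm_sum_le_of_le _ h1).trans ?_
  rw [Finset.sum_const, Finset.card_range, nsmul_eq_mul]
  have : ((x - r : ℕ) : ℝ) ≤ x := by exact_mod_cast Nat.sub_le x r
  gcongr

end Pool.Agent.PAT
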