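import Mathlib
import Pool.Agent.Lib_helper65.PAT.A

/-!
# PAT: the second moment and the main theorem (MP_892e4c_nt)
-/

set_option autoImplicit false

namespace Pool.Agent.PAT

open Pool.Agent.PS

/-- at most `s` of the differences `r` are exceptional -/
theorem pq_card {s : ℕ} {a : Fin s → ℤ} (ha : ∀ i, a i ≠ 0) (M : ℕ) :
    ((Finset.Ico 1 M).filter (fun r : ℕ => pq a r = 0)).card ≤ s := by
  classical
  have h1 : (Finset.Ico 1 M).filter (fun r : ℕ => pq a r = 0) ⊆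
      (Finset.univ : Finset (Fin s)).image (fun i => (a i).toNat) := by
    intro r hr
    rw [Finset.mem_filter, Finset.mem_Ico] at hr
    rw [Finset.mem_image]
    by_contra hcon
    push Not at hcon
    refine pq_ne ha (r := (r : ℤ)) (by omega) (fun i hi => ?_) hr.2
    refine hcon i (Finset.mem_univ _) ?_
    rw [hi, Int.toNat_natCast]
  refine (Finset.card_le_card h1).trans (Finset.card_image_le.trans (le_of_eq ?_))
  rw [Finset.card_univ, Fintype.card_fin]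

theorem pat_err {K x H C₁ : ℕ} {j e : ℕ} {δ : ℝ} (hδ : 0 ≤ δ) (hx : 1 ≤ x)
    (hC : ((j + 1 : ℕ) : ℝ) * K * 3 ^ e ≤ δ * C₁)
    (hH : C₁ * x ^ e ≤ H) :
    (x : ℝ) * (2 * (((j + 1 : ℕ) : ℝ) * (K * ((2 * x + 1) ^ e : ℕ)) *
      (2 * (H : ℝ) + 1) ^ j)) ≤ δ * (x * (2 * (H : ℝ) + 1) ^ (j + 1)) := by
  have hx' : (1 : ℝ) ≤ x := by exact_mod_cast hx
  have hH' : (C₁ : ℝ) * x ^ e ≤ H := by exact_mod_cast hH
  have h0 : ((2 * x + 1) ^ e : ℕ) ≤ (3 : ℝ) ^ e * x ^ e := by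
    push_cast
    rw [← mul_pow]
    gcongr
    linarith
  have h1 : 2 * (((j + 1 : ℕ) : ℝ) * (K * ((2 * x + 1) ^ e : ℕ))) ≤
      δ * (2 * (H : ℝ) + 1) := by
    calc 2 * (((j + 1 : ℕ) : ℝ) * (K * ((2 * x + 1) ^ e : ℕ)))
        ≤ 2 * (((j + 1 : ℕ) : ℝ) * (K * ((3 : ℝ) ^ e * x ^ e))) := by gcongr
      _ = 2 * (((j + 1 : ℕ) : ℝ) * K * 3 ^ e) * x ^ e := by ring
      _ ≤ 2 * (δ * C₁) * x ^ e := by gcongr
      _ = 2 * δ * (C₁ * x ^ e) := by ring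
      _ ≤ 2 * δ * H := by gcongr
      _ ≤ δ * (2 * (H : ℝ) + 1) := by linarith
  calc (x : ℝ) * (2 * (((j + 1 : ℕ) : ℝ) * (K * ((2 * x + 1) ^ e : ℕ)) *
      (2 * (H : ℝ) + 1) ^ j))
      = x * (2 * (H : ℝ) + 1) ^ j * (2 * (((j + 1 : ℕ) : ℝ) * (K * ((2 * x + 1) ^ e : ℕ)))) := by
        ring
    _ ≤ x * (2 * (H : ℝ) + 1) ^ j * (δ * (2 * (H : ℝ) + 1)) := by gcongr
    _ = _ := by rw [pow_succ]; ring

/-- the second moment -/
theorem p_main (f : Polynomial ℤ) (j s : ℕ) (a : Fin s → ℤ) (ha : ∀ i, a i ≠ 0)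
    (hj : 2 * s + 1 ≤ j) (ε : ℝ) (hε : 0 < ε) :
    ∃ C x₀ : ℕ, ∀ x H : ℕ, x₀ ≤ x → C * x ^ (2 * s + 1) ≤ H →
      C * x ^ (f.natDegree - 1) ≤ H * x ^ j →
      ∀ Ψ : ℕ → (Fin s → ℤ) → ℂ, (∀ n v, ‖Ψ n v‖ ≤ 1) →
      ∑ h ∈ bx j H, ‖∑ n ∈ Finset.Icc 1 x,
        (lz (Pv f h n) : ℂ) * Ψ n (fun i => hv h ((n : ℤ) + a i))‖ ^ 2 ≤
        ε * x ^ 2 * (2 * H + 1) ^ (j + 1) := by
  set δ : ℝ := ε / 32 with hδ
  have hδp : 0 < δ := by positivity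
  obtain ⟨C, x₁, hC1, htr⟩ := transfer f j δ hδp
  have hCp : (1 : ℝ) ≤ C := by exact_mod_cast hC1
  set η : ℝ := δ / (C : ℝ) ^ 2 with hη
  have hηp : 0 < η := by positivity
  set M : ℕ := ⌈(8 + 16 * s) / ε⌉₊ + 1 with hM
  have hM1 : 1 ≤ M := by omega
  have hMε : (8 + 16 * s) / ε ≤ (M : ℝ) := by
    calc (8 + 16 * s) / ε ≤ (⌈(8 + 16 * (s : ℝ)) / ε⌉₊ : ℝ) := Nat.le_ceil _
      _ ≤ (M : ℝ) := by rw [hM]; push_cast; linarith
  have hMp : (0 : ℝ) < M := by exact_mod_cast hM1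
  have hq : ∀ r : ℕ, ∃ N₀ : ℕ, pq a r ≠ 0 → ∀ N : ℕ, N₀ ≤ N → ∃ X₀ : ℕ, ∀ X : ℕ, X₀ ≤ X →
      ∀ θ : ℝ, ∑ A ∈ Iz X, bq (pq a r) θ N A ≤ η * X := by
    intro r
    by_cases hr : pq a r ≠ 0
    · obtain ⟨N₀, h⟩ := mr_q (pq a r) hr η hηp
      exact ⟨N₀, fun _ => h⟩
    · exact ⟨0, fun h => absurd h hr⟩
  choose N₀ hN₀ using hq
  set K : ℕ := (Finset.range M).sup N₀ + 1 with hK
  have hK1 : 1 ≤ K := by omega
  have hq2 : ∀ r : ℕ, ∃ X₀ : ℕ, pq a r ≠ 0 → r < M → ∀ X : ℕ, X₀ ≤ X →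
      ∀ θ : ℝ, ∑ A ∈ Iz X, bq (pq a r) θ K A ≤ η * X := by
    intro r
    by_cases hr : pq a r ≠ 0 ∧ r < M
    · obtain ⟨X₀, h⟩ := hN₀ r hr.1 K (by
        calc N₀ r ≤ (Finset.range M).sup N₀ := Finset.le_sup (Finset.mem_range.mpr hr.2)
          _ ≤ K := by omega)
      exact ⟨X₀, fun _ _ => h⟩
    · exact ⟨0, fun h1 h2 => absurd ⟨h1, h2⟩ hr⟩
  choose X₀ hX₀ using hq2
  set C₁ : ℕ := ⌈((j + 1 : ℕ) : ℝ) * K * 3 ^ (2 * s + 1) / δ⌉₊ + 1 with hC₁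
  have hC₁1 : 1 ≤ C₁ := by omega
  have hC₁K : ((j + 1 : ℕ) : ℝ) * K * 3 ^ (2 * s + 1) ≤ δ * C₁ := by
    have : ((j + 1 : ℕ) : ℝ) * K * 3 ^ (2 * s + 1) / δ ≤ (C₁ : ℝ) := by
      calc _ ≤ (⌈((j + 1 : ℕ) : ℝ) * K * 3 ^ (2 * s + 1) / δ⌉₊ : ℝ) := Nat.le_ceil _
        _ ≤ (C₁ : ℝ) := by rw [hC₁]; push_cast; linarith
    rw [div_le_iff₀ hδp] at this
    linarith
  set A : ℕ := (Finset.univ : Finset (Fin s)).sup (fun i => (a i).natAbs) with hA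
  refine ⟨C₁, x₁ + M + (Finset.range M).sup X₀ + A + 1, fun x H hx hH1 hH2 Ψ hΨ => ?_⟩
  have hx1 : 1 ≤ x := by omega
  have hax : ∀ i, |a i| ≤ x := by
    intro i
    have h1 : (a i).natAbs ≤ A := by
      rw [hA]
      exact Finset.le_sup (f := fun i => (a i).natAbs) (Finset.mem_univ i)
    rw [Int.abs_eq_natAbs]
    exact_mod_cast (by omega : (a i).natAbs ≤ x)
  have hxR : (1 : ℝ) ≤ x := by exact_mod_cast hx1
  have hxH : x ≤ H := by
    calc x = 1 * x ^ 1 := by ring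
      _ ≤ C₁ * x ^ (2 * s + 1) := Nat.mul_le_mul hC₁1 (Nat.pow_le_pow_right hx1 (by omega))
      _ ≤ H := hH1
  set T : ℝ := (2 * (H : ℝ) + 1) ^ (j + 1) with hT
  have hTp : 0 < T := by positivity
  set R : ℕ := max (x ^ f.natDegree) (H * x ^ j) with hR
  have hRx : x ≤ R := by
    calc x = x * 1 := (mul_one x).symm
      _ ≤ H * x ^ j := Nat.mul_le_mul hxH (Nat.one_le_pow _ _ hx1)
      _ ≤ R := le_max_right _ _
  have hRp : (0 : ℝ) < R := by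
    have : 0 < R := by omega
    exact_mod_cast this
  have hdeg : x ^ (f.natDegree - 1) ≤ H * x ^ j := by
    calc x ^ (f.natDegree - 1) = 1 * x ^ (f.natDegree - 1) := (one_mul _).symm
      _ ≤ C₁ * x ^ (f.natDegree - 1) := Nat.mul_le_mul_right _ hC₁1
      _ ≤ H * x ^ j := hH2
  -- the correlations
  have hcorr : ∀ r ∈ Finset.Ico 1 M, ‖∑ n ∈ Finset.range (x - r), ∑ h ∈ bx j H,
      py f a Ψ h n * (starRingEnd ℂ) (py f a Ψ h (n + r))‖ ≤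
        3 * δ * (x * T) + (if pq a r = 0 then x * T else 0) := by
    intro r hr
    rw [Finset.mem_Ico] at hr
    by_cases h0 : pq a r = 0
    · rw [if_pos h0]
      have h1 := pat_triv (j := j) f a hΨ x H r
      have h2 : 0 ≤ 3 * δ * (x * T) := by positivity
      rw [← hT] at h1
      linarith
    · rw [if_neg h0, add_zero]
      have h1 := pat_corr f a hj hΨ x H r K hK1 hax
      have h2 := htr x H (by omega) hdeg (Or.inr hxH) (fun b => bq (pq a r) 0 K b)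
        (fun b => ⟨bq_nonneg _ _ _ _, bq_le _ _ _ _⟩)
      have h3 := hX₀ r h0 hr.2 (C * R) (by
        calc X₀ r ≤ (Finset.range M).sup X₀ := Finset.le_sup (Finset.mem_range.mpr hr.2)
          _ ≤ x := by omega
          _ ≤ R := hRx
          _ = 1 * R := (one_mul R).symm
          _ ≤ C * R := Nat.mul_le_mul_right R hC1) 0
      have h4 : (C : ℝ) / (R : ℝ) * ∑ b ∈ Iz (C * R), bq (pq a r) 0 K b ≤ δ := by
        calc (C : ℝ) / (R : ℝ) * ∑ b ∈ Iz (C * R), bq (pq a r) 0 K b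
            ≤ (C : ℝ) / (R : ℝ) * (η * ((C * R : ℕ) : ℝ)) := by gcongr
          _ = δ := by
              rw [hη]
              push_cast
              field_simp
      have h5 := pat_err (j := j) hδp.le hx1 hC₁K hH1
      have h6 : ∑ n ∈ Finset.Icc 1 x, ∑ h ∈ bx j H, bq (pq a r) 0 K (Pv f h n) ≤
          x * T * (δ + δ) := by
        refine h2.trans ?_
        rw [← hR]
        gcongr
      calc ‖∑ n ∈ Finset.range (x - r), ∑ h ∈ bx j H,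
            py f a Ψ h n * (starRingEnd ℂ) (py f a Ψ h (n + r))‖
          ≤ x * T * (δ + δ) + δ * (x * T) := by linarith
        _ = 3 * δ * (x * T) := by ring
  have hv := vdc (bx j H) (fun h n => py f a Ψ h n) x M hM1 (by omega)
    (fun h n => py_le f a hΨ h n)
  have hcard : ((bx j H).card : ℝ) = T := by
    rw [bx_card, hT]
    push_cast
    ring
  rw [hcard] at hv
  simp_rw [py_sum]
  refine hv.trans ?_
  have hs : ∑ r ∈ Finset.Ico 1 M, ‖∑ n ∈ Finset.range (x - r), ∑ h ∈ bx j H,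
      py f a Ψ h n * (starRingEnd ℂ) (py f a Ψ h (n + r))‖ ≤
        M * (3 * δ * (x * T)) + s * (x * T) := by
    calc ∑ r ∈ Finset.Ico 1 M, ‖∑ n ∈ Finset.range (x - r), ∑ h ∈ bx j H,
        py f a Ψ h n * (starRingEnd ℂ) (py f a Ψ h (n + r))‖
        ≤ ∑ r ∈ Finset.Ico 1 M, (3 * δ * (x * T) + (if pq a r = 0 then x * T else 0)) :=
          Finset.sum_le_sum hcorr
      _ = ((M - 1 : ℕ) : ℝ) * (3 * δ * (x * T)) +
          (((Finset.Ico 1 M).filter (fun r : ℕ => pq a r = 0)).card : ℝ) * (x * T) := by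
          rw [Finset.sum_add_distrib, Finset.sum_const, Nat.card_Ico, nsmul_eq_mul,
            ← Finset.sum_filter, Finset.sum_const, nsmul_eq_mul]
      _ ≤ M * (3 * δ * (x * T)) + s * (x * T) := by
          have h1 : ((M - 1 : ℕ) : ℝ) ≤ M := by exact_mod_cast Nat.sub_le M 1
          have h2 : (((Finset.Ico 1 M).filter (fun r : ℕ => pq a r = 0)).card : ℝ) ≤ s := by
            exact_mod_cast pq_card ha M
          gcongr
  have h8 : 8 + 16 * (s : ℝ) ≤ ε * M := by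
    rw [div_le_iff₀ hε] at hMε
    linarith
  have h2M : 2 * (x : ℝ) ^ 2 * T / M + 4 * x / M * (s * (x * T)) ≤ ε / 4 * (x ^ 2 * T) := by
    have hp : 0 < (x : ℝ) ^ 2 * T := by positivity
    have e : 2 * (x : ℝ) ^ 2 * T / M + 4 * x / M * (s * (x * T)) =
        (2 + 4 * s) * (x ^ 2 * T) / M := by ring
    rw [e, div_le_iff₀ hMp]
    nlinarith
  calc 2 * (x : ℝ) ^ 2 * T / M + 4 * x / M * ∑ r ∈ Finset.Ico 1 M,
        ‖∑ n ∈ Finset.range (x - r), ∑ h ∈ bx j H,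
          py f a Ψ h n * (starRingEnd ℂ) (py f a Ψ h (n + r))‖
      ≤ 2 * (x : ℝ) ^ 2 * T / M + 4 * x / M * (M * (3 * δ * (x * T)) + s * (x * T)) := by gcongr
    _ = (2 * (x : ℝ) ^ 2 * T / M + 4 * x / M * (s * (x * T))) + 12 * δ * (x ^ 2 * T) := by
        field_simp
        ring
    _ ≤ ε / 4 * (x ^ 2 * T) + 12 * δ * (x ^ 2 * T) := by linarith
    _ ≤ ε * x ^ 2 * T := by
        rw [hδ]
        have hp : 0 < ε * ((x : ℝ) ^ 2 * T) := by positivity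
        nlinarith

/-- the exceptional set -/
theorem p_excl (f : Polynomial ℤ) (j s : ℕ) (a : Fin s → ℤ) (ha : ∀ i, a i ≠ 0)
    (hj : 2 * s + 1 ≤ j) (ε : ℝ) (hε : 0 < ε) :
    ∃ C x₀ : ℕ, ∀ x H : ℕ, x₀ ≤ x → C * x ^ (2 * s + 1) ≤ H →
      C * x ^ (f.natDegree - 1) ≤ H * x ^ j →
      ∀ Ψ : ℕ → (Fin s → ℤ) → ℂ, (∀ n v, ‖Ψ n v‖ ≤ 1) →
      (((bx j H).filter (fun h => ε * x < ‖∑ n ∈ Finset.Icc 1 x,
        (lz (Pv f h n) : ℂ) * Ψ n (fun i => hv h ((n : ℤ) + a i))‖)).card : ℝ) ≤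
        ε * (2 * H + 1) ^ (j + 1) := by
  classical
  obtain ⟨C, x₀, hc⟩ := p_main f j s a ha hj (ε ^ 3) (by positivity)
  refine ⟨C, max x₀ 1, ?_⟩
  intro x H hx hCx hC Ψ hΨ
  have hx1 : 1 ≤ x := (le_max_right _ _).trans hx
  have hxR : (0 : ℝ) < x := by exact_mod_cast hx1
  have hS := hc x H ((le_max_left _ _).trans hx) hCx hC Ψ hΨ
  have h1 : (((bx j H).filter (fun h => ε * x < ‖∑ n ∈ Finset.Icc 1 x,
      (lz (Pv f h n) : ℂ) * Ψ n (fun i => hv h ((n : ℤ) + a i))‖)).card : ℝ) *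
        (ε * x) ^ 2 ≤ ∑ h ∈ bx j H, ‖∑ n ∈ Finset.Icc 1 x,
        (lz (Pv f h n) : ℂ) * Ψ n (fun i => hv h ((n : ℤ) + a i))‖ ^ 2 := by
    rw [← nsmul_eq_mul, ← Finset.sum_const]
    refine (Finset.sum_le_sum fun h hh => ?_).trans
      (Finset.sum_le_sum_of_subset_of_nonneg (Finset.filter_subset _ _) fun h _ _ => ?_)
    · have h2 := (Finset.mem_filter.1 hh).2
      have h3 : 0 < ε * x := by positivity
      exact pow_le_pow_left₀ h3.le h2.le 2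
    · positivity
  have hp : (0 : ℝ) < (ε * x) ^ 2 := by positivity
  refine le_of_mul_le_mul_right ((h1.trans hS).trans (le_of_eq ?_)) hp
  ring

end Pool.Agent.PAT
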