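import Mathlib
import Pool.Agent.Lib_helper65.PAT.B

/-!
# PAT: sign patterns (MP_892e4c_nt)
-/

set_option autoImplicit false

namespace Pool.Agent.PAT

open Pool.Agent.PS

theorem rng_one (u : ℤ → ℂ) (x : ℕ) :
    ∑ n ∈ Finset.Icc 1 x, u (n : ℤ) = ∑ n ∈ Finset.range x, u ((n : ℤ) + 1) := by
  have h1 : Finset.Icc 1 x = Finset.Ico 1 (x + 1) := by
    ext n
    rw [Finset.mem_Icc, Finset.mem_Ico]
    omega
  rw [h1, Finset.sum_Ico_eq_sum_range]
  simp only [Nat.add_sub_cancel]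
  refine Finset.sum_congr rfl fun n _ => ?_
  congr 1
  push_cast
  ring

theorem rng_nat (u : ℤ → ℂ) (hu : ∀ m, ‖u m‖ ≤ 1) (x b : ℕ) :
    ‖∑ n ∈ Finset.Icc 1 x, u ((n : ℤ) + b) - ∑ n ∈ Finset.Icc 1 x, u (n : ℤ)‖ ≤ 2 * b := by
  induction b with
  | zero => simp
  | succ b ih =>
    have e1 : ∑ n ∈ Finset.Icc 1 x, u ((n : ℤ) + (b + 1 : ℕ)) =
        ∑ n ∈ Finset.Icc 1 x, u ((n : ℤ) + b) + u ((x : ℤ) + 1 + b) - u (1 + (b : ℤ)) := by
      rw [rng_one (fun m => u (m + (b + 1 : ℕ))), rng_one (fun m => u (m + b))]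
      have h1 := Finset.sum_range_succ (fun n : ℕ => u ((n : ℤ) + 1 + b)) x
      have h2 := Finset.sum_range_succ' (fun n : ℕ => u ((n : ℤ) + 1 + b)) x
      have h3 : ∑ n ∈ Finset.range x, u ((n : ℤ) + 1 + ((b + 1 : ℕ) : ℤ)) =
          ∑ n ∈ Finset.range x, u (((n + 1 : ℕ) : ℤ) + 1 + b) := by
        refine Finset.sum_congr rfl fun n _ => ?_
        congr 1
        push_cast
        ring
      rw [h3]
      have h4 : u (((0 : ℕ) : ℤ) + 1 + b) = u (1 + (b : ℤ)) := by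
        rw [Nat.cast_zero, zero_add]
      rw [h4] at h2
      rw [h2] at h1
      exact eq_sub_of_add_eq h1
    have e2 : ∑ n ∈ Finset.Icc 1 x, u ((n : ℤ) + (b + 1 : ℕ)) - ∑ n ∈ Finset.Icc 1 x, u (n : ℤ) =
        (∑ n ∈ Finset.Icc 1 x, u ((n : ℤ) + b) - ∑ n ∈ Finset.Icc 1 x, u (n : ℤ)) +
          (u ((x : ℤ) + 1 + b) - u (1 + (b : ℤ))) := by
      rw [e1]
      ring
    rw [e2]
    calc _ ≤ ‖∑ n ∈ Finset.Icc 1 x, u ((n : ℤ) + b) - ∑ n ∈ Finset.Icc 1 x, u (n : ℤ)‖ +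
          ‖u ((x : ℤ) + 1 + b) - u (1 + (b : ℤ))‖ := norm_add_le _ _
      _ ≤ 2 * b + (1 + 1) := by
          refine add_le_add ih ((norm_sub_le _ _).trans (add_le_add (hu _) (hu _)))
      _ = _ := by push_cast; ring

theorem rng_int (u : ℤ → ℂ) (hu : ∀ m, ‖u m‖ ≤ 1) (x : ℕ) (b : ℤ) :
    ‖∑ n ∈ Finset.Icc 1 x, u ((n : ℤ) + b) - ∑ n ∈ Finset.Icc 1 x, u (n : ℤ)‖ ≤
      2 * (b.natAbs : ℝ) := by
  rcases le_total 0 b with hb | hb
  · lift b to ℕ using hb
    simpa using rng_nat u hu x b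
  · obtain ⟨c, rfl⟩ : ∃ c : ℕ, b = -(c : ℤ) := ⟨b.natAbs, by omega⟩
    have h1 := rng_nat (fun m => u (m - c)) (fun m => hu _) x c
    rw [norm_sub_rev] at h1
    simpa [sub_eq_add_neg] using h1

/-- the value at the integer `m` -/
noncomputable def pz (f : Polynomial ℤ) {j : ℕ} (h : Fin (j + 1) → ℤ) (m : ℤ) : ℤ :=
  f.eval m + hv h m

/-- the correlation with a function of the values at other places -/
theorem p_node (f : Polynomial ℤ) (j s : ℕ) (b : Fin s → ℤ) (b0 : ℤ) (hb : ∀ i, b i ≠ b0)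
    (hj : 2 * s + 1 ≤ j) (ε : ℝ) (hε : 0 < ε) :
    ∃ C x₀ : ℕ, ∀ x H : ℕ, x₀ ≤ x → C * x ^ (2 * s + 1) ≤ H →
      C * x ^ (f.natDegree - 1) ≤ H * x ^ j →
      ∀ Ψ : (Fin s → ℤ) → ℂ, (∀ v, ‖Ψ v‖ ≤ 1) →
      (((bx j H).filter (fun h => ε * x < ‖∑ n ∈ Finset.Icc 1 x,
        (lz (pz f h ((n : ℤ) + b0)) : ℂ) * Ψ (fun i => pz f h ((n : ℤ) + b i))‖)).card : ℝ) ≤
        ε * (2 * H + 1) ^ (j + 1) := by
  classical
  obtain ⟨C, x₀, hc⟩ := p_excl f j s (fun i => b i - b0) (fun i => sub_ne_zero.2 (hb i)) hj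
    (ε / 2) (by positivity)
  refine ⟨C, x₀ + ⌈4 * (b0.natAbs : ℝ) / ε⌉₊, fun x H hx hH hC Ψ hΨ => ?_⟩
  have h1 := hc x H (by omega) hH hC
    (fun n v => Ψ (fun i => f.eval ((n : ℤ) + (b i - b0)) + v i)) (fun n v => hΨ _)
  have hx2 : 4 * (b0.natAbs : ℝ) ≤ ε * x := by
    have : 4 * (b0.natAbs : ℝ) / ε ≤ (x : ℝ) := by
      calc _ ≤ (⌈4 * (b0.natAbs : ℝ) / ε⌉₊ : ℝ) := Nat.le_ceil _
        _ ≤ x := Nat.cast_le.2 (by omega)
    rw [div_le_iff₀ hε] at this
    linarith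
  have hT : (0 : ℝ) < (2 * H + 1) ^ (j + 1) := by positivity
  refine le_trans ?_ (h1.trans (by nlinarith))
  refine Nat.cast_le.2 (Finset.card_le_card ?_)
  intro h hh
  rw [Finset.mem_filter] at hh ⊢
  refine ⟨hh.1, ?_⟩
  have h2 := rng_int (fun m => (lz (pz f h m) : ℂ) * Ψ (fun i => pz f h (m + (b i - b0))))
    (fun m => by
      rw [norm_mul]
      exact mul_le_one₀ (lz_norm _) (norm_nonneg _) (hΨ _)) x b0
  have e1 : ∑ n ∈ Finset.Icc 1 x, (lz (pz f h ((n : ℤ) + b0)) : ℂ) *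
      Ψ (fun i => pz f h ((n : ℤ) + b i)) = ∑ n ∈ Finset.Icc 1 x,
        (fun m => (lz (pz f h m) : ℂ) * Ψ (fun i => pz f h (m + (b i - b0)))) ((n : ℤ) + b0) := by
    refine Finset.sum_congr rfl fun n _ => ?_
    beta_reduce
    congr 2
    funext i
    congr 1
    ring
  have e2 : ∑ n ∈ Finset.Icc 1 x, (lz (Pv f h n) : ℂ) *
      Ψ (fun i => f.eval ((n : ℤ) + (b i - b0)) + hv h ((n : ℤ) + (b i - b0))) =
        ∑ n ∈ Finset.Icc 1 x,
        (fun m => (lz (pz f h m) : ℂ) * Ψ (fun i => pz f h (m + (b i - b0)))) (n : ℤ) := rfl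
  rw [e2]
  have h3 := hh.2
  rw [e1] at h3
  have h4 := norm_sub_norm_le (∑ n ∈ Finset.Icc 1 x,
        (fun m => (lz (pz f h m) : ℂ) * Ψ (fun i => pz f h (m + (b i - b0)))) ((n : ℤ) + b0))
    (∑ n ∈ Finset.Icc 1 x,
        (fun m => (lz (pz f h m) : ℂ) * Ψ (fun i => pz f h (m + (b i - b0)))) (n : ℤ))
  linarith

theorem zero_count (f : Polynomial ℤ) (j H : ℕ) (m : ℤ) :
    ((bx j H).filter (fun h => pz f h m = 0)).card ≤ (2 * H + 1) ^ j := by
  classical
  have h1 : (Fintype.piFinset (fun _ : Fin j => Iz H)).card = (2 * H + 1) ^ j := by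
    rw [Fintype.card_piFinset]
    simp [Iz_card]
  rw [← h1]
  refine Finset.card_le_card_of_injOn (fun h i => h i.succ) ?_ ?_
  · intro h hh
    have hb := (Finset.mem_filter.1 hh).1
    unfold bx at hb
    rw [Fintype.mem_piFinset] at hb
    rw [Finset.mem_coe, Fintype.mem_piFinset]
    intro i
    exact hb i.succ
  · intro h hh h' hh' e
    have e1 : pz f h m = 0 := (Finset.mem_filter.1 hh).2
    have e2 : pz f h' m = 0 := (Finset.mem_filter.1 hh').2
    have e3 : ∀ i : Fin j, h i.succ = h' i.succ := fun i => congrFun e i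
    unfold pz hv at e1 e2
    rw [Fin.sum_univ_succ] at e1 e2
    simp only [e3] at e1
    funext i
    refine Fin.cases ?_ e3 i
    simp only [Fin.val_zero, pow_zero, mul_one] at e1 e2
    linarith

/-- the number of zeros -/
noncomputable def zc (f : Polynomial ℤ) {j : ℕ} (h : Fin (j + 1) → ℤ) (b0 : ℤ)
    (S : Finset ℕ) : ℕ :=
  (S.filter (fun n : ℕ => pz f h ((n : ℤ) + b0) = 0)).card

theorem zc_sum (f : Polynomial ℤ) (j H : ℕ) (b0 : ℤ) (S : Finset ℕ) :
    ∑ h ∈ bx j H, zc f h b0 S ≤ S.card * (2 * H + 1) ^ j := by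
  classical
  calc ∑ h ∈ bx j H, zc f h b0 S
      = ∑ h ∈ bx j H, ∑ n ∈ S, (if pz f h ((n : ℤ) + b0) = 0 then 1 else 0) := by
        refine Finset.sum_congr rfl fun h _ => ?_
        unfold zc
        rw [Finset.card_filter]
    _ = ∑ n ∈ S, ((bx j H).filter (fun h => pz f h ((n : ℤ) + b0) = 0)).card := by
        rw [Finset.sum_comm]
        refine Finset.sum_congr rfl fun n _ => ?_
        rw [Finset.card_filter]
    _ ≤ ∑ n ∈ S, (2 * H + 1) ^ j := Finset.sum_le_sum fun n _ => zero_count f j H _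
    _ = _ := by rw [Finset.sum_const, smul_eq_mul]

open Classical in
/-- the number of occurrences of a sign pattern -/
noncomputable def pc (f : Polynomial ℤ) {j k : ℕ} (h : Fin (j + 1) → ℤ) (b : Fin k → ℤ)
    (σ : Fin k → ℝ) (S : Finset ℕ) : ℝ :=
  ((S.filter (fun n : ℕ => ∀ i, lz (pz f h ((n : ℤ) + b i)) = σ i)).card : ℝ)

open Classical in
theorem pc_step (f : Polynomial ℤ) {j k : ℕ} (h : Fin (j + 1) → ℤ) (b : Fin (k + 1) → ℤ)
    (σ : Fin (k + 1) → ℝ) (hσ : ∀ i, σ i = 1 ∨ σ i = -1) (S : Finset ℕ) :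
    |2 * pc f h b σ S - pc f h (fun i : Fin k => b i.castSucc) (fun i => σ i.castSucc) S| ≤
      ‖∑ n ∈ S, (lz (pz f h ((n : ℤ) + b (Fin.last k))) : ℂ) *
        (fun v : Fin k → ℤ => if ∀ i, lz (v i) = σ i.castSucc then (1 : ℂ) else 0)
          (fun i => pz f h ((n : ℤ) + b i.castSucc))‖ + zc f h (b (Fin.last k)) S := by
  set p : ℕ → Prop := fun n => ∀ i : Fin k, lz (pz f h ((n : ℤ) + b i.castSucc)) = σ i.castSucc
    with hp
  set l : ℕ → ℝ := fun n => lz (pz f h ((n : ℤ) + b (Fin.last k))) with hl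
  have e1 : pc f h b σ S = ∑ n ∈ S,
      (if p n ∧ l n = σ (Fin.last k) then (1 : ℝ) else 0) := by
    unfold pc
    rw [Finset.card_filter, Nat.cast_sum]
    refine Finset.sum_congr rfl fun n _ => ?_
    have h0 : (∀ i : Fin (k + 1), lz (pz f h ((n : ℤ) + b i)) = σ i) ↔
        (p n ∧ l n = σ (Fin.last k)) := Fin.forall_fin_succ'
    by_cases h1 : p n ∧ l n = σ (Fin.last k)
    · rw [if_pos (h0.2 h1), if_pos h1, Nat.cast_one]
    · rw [if_neg (fun h2 => h1 (h0.1 h2)), if_neg h1, Nat.cast_zero]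
  have e2 : pc f h (fun i : Fin k => b i.castSucc) (fun i => σ i.castSucc) S =
      ∑ n ∈ S, (if p n then (1 : ℝ) else 0) := by
    unfold pc
    rw [Finset.card_filter, Nat.cast_sum]
    refine Finset.sum_congr rfl fun n _ => ?_
    by_cases h1 : p n
    · rw [if_pos (show ∀ i : Fin k, lz (pz f h ((n : ℤ) + b i.castSucc)) = σ i.castSucc from h1),
        if_pos h1, Nat.cast_one]
    · rw [if_neg (show ¬ ∀ i : Fin k, lz (pz f h ((n : ℤ) + b i.castSucc)) = σ i.castSucc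
        from h1), if_neg h1, Nat.cast_zero]
  have e3 : ∀ n, 2 * (if p n ∧ l n = σ (Fin.last k) then (1 : ℝ) else 0) -
      (if p n then (1 : ℝ) else 0) = σ (Fin.last k) * (l n * (if p n then (1 : ℝ) else 0)) -
        (if p n ∧ l n = 0 then (1 : ℝ) else 0) := by
    intro n
    by_cases h1 : p n
    · by_cases h2 : pz f h ((n : ℤ) + b (Fin.last k)) = 0
      · have h3 : l n = 0 := by rw [hl]; beta_reduce; rw [h2, lz_zero]
        rcases hσ (Fin.last k) with h4 | h4 <;> rw [h3, h4] <;> simp [h1]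
      · rcases lz_pm _ h2 with h3 | h3 <;> rcases hσ (Fin.last k) with h4 | h4
        · have h5 : l n = 1 := h3
          rw [h5, h4]; simp [h1]; norm_num
        · have h5 : l n = 1 := h3
          rw [h5, h4]; simp [h1]; norm_num
        · have h5 : l n = -1 := h3
          rw [h5, h4]; simp [h1]; norm_num
        · have h5 : l n = -1 := h3
          rw [h5, h4]; simp [h1]; norm_num
    · simp [h1]
  have e4 : 2 * pc f h b σ S - pc f h (fun i : Fin k => b i.castSucc) (fun i => σ i.castSucc) S =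
      σ (Fin.last k) * ∑ n ∈ S, (l n * (if p n then (1 : ℝ) else 0)) -
        ∑ n ∈ S, (if p n ∧ l n = 0 then (1 : ℝ) else 0) := by
    rw [e1, e2, Finset.mul_sum, ← Finset.sum_sub_distrib, Finset.mul_sum,
      ← Finset.sum_sub_distrib]
    exact Finset.sum_congr rfl fun n _ => e3 n
  have e5 : ‖∑ n ∈ S, (lz (pz f h ((n : ℤ) + b (Fin.last k))) : ℂ) *
        (fun v : Fin k → ℤ => if ∀ i, lz (v i) = σ i.castSucc then (1 : ℂ) else 0)
          (fun i => pz f h ((n : ℤ) + b i.castSucc))‖ =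
      |∑ n ∈ S, (l n * (if p n then (1 : ℝ) else 0))| := by
    rw [← Real.norm_eq_abs, ← Complex.norm_real, Complex.ofReal_sum]
    congr 1
    refine Finset.sum_congr rfl fun n _ => ?_
    beta_reduce
    by_cases h1 : p n
    · rw [if_pos (show ∀ i : Fin k, lz (pz f h ((n : ℤ) + b i.castSucc)) = σ i.castSucc from h1),
        if_pos h1, mul_one, mul_one]
    · rw [if_neg (show ¬ ∀ i : Fin k, lz (pz f h ((n : ℤ) + b i.castSucc)) = σ i.castSucc
        from h1), if_neg h1, mul_zero, mul_zero, Complex.ofReal_zero]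
  have e6 : ∑ n ∈ S, (if p n ∧ l n = 0 then (1 : ℝ) else 0) ≤
      zc f h (b (Fin.last k)) S := by
    unfold zc
    rw [Finset.card_filter, Nat.cast_sum]
    refine Finset.sum_le_sum fun n _ => ?_
    by_cases h1 : pz f h ((n : ℤ) + b (Fin.last k)) = 0
    · rw [if_pos h1]
      split_ifs <;> simp
    · have h2 : l n ≠ 0 := by
        rcases lz_pm _ h1 with h3 | h3
        · intro h4
          have : l n = 1 := h3
          rw [this] at h4
          norm_num at h4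
        · intro h4
          have : l n = -1 := h3
          rw [this] at h4
          norm_num at h4
      rw [if_neg (fun h3 => h2 h3.2)]
      positivity
  have e7 : 0 ≤ ∑ n ∈ S, (if p n ∧ l n = 0 then (1 : ℝ) else 0) :=
    Finset.sum_nonneg fun n _ => by split_ifs <;> norm_num
  have e8 : |σ (Fin.last k)| = 1 := by
    rcases hσ (Fin.last k) with h4 | h4 <;> rw [h4] <;> simp
  rw [e4, e5]
  calc _ ≤ |σ (Fin.last k) * ∑ n ∈ S, (l n * (if p n then (1 : ℝ) else 0))| +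
        |∑ n ∈ S, (if p n ∧ l n = 0 then (1 : ℝ) else 0)| := abs_sub _ _
    _ ≤ _ := by
      rw [abs_mul, e8, one_mul, abs_of_nonneg e7]
      linarith

end Pool.Agent.PAT
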