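import Mathlib
import Pool.Agent.Lib_helper65.PAT.C

/-!
# PAT: the signs, and the products (MP_892e4c_nt)
-/

set_option autoImplicit false

namespace Pool.Agent.PAT

open Pool.Agent.PS

/-- the signs of a Boolean vector -/
def sg {k : ℕ} (β : Fin k → Bool) : Fin k → ℝ := fun i => if β i then 1 else -1

theorem sg_pm {k : ℕ} (β : Fin k → Bool) (i : Fin k) : sg β i = 1 ∨ sg β i = -1 := by
  unfold sg
  by_cases h : β i = true
  · exact Or.inl (by rw [if_pos h])
  · exact Or.inr (by rw [if_neg h])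

theorem sg_surj {k : ℕ} (σ : Fin k → ℝ) (hσ : ∀ i, σ i = 1 ∨ σ i = -1) : ∃ β, sg β = σ := by
  classical
  refine ⟨fun i => decide (σ i = 1), ?_⟩
  funext i
  unfold sg
  rcases hσ i with h | h
  · rw [if_pos (by simp [h]), h]
  · rw [if_neg (by simp only [decide_eq_true_eq]; rw [h]; norm_num), h]

theorem lz_one : lz 1 = 1 := by
  unfold lz
  simp [lam_one]

theorem lz_prod {k : ℕ} (g : Fin k → ℤ) : lz (∏ i, g i) = ∏ i, lz (g i) := by
  induction k with
  | zero => simp [lz_one]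
  | succ k ih => rw [Fin.prod_univ_castSucc, Fin.prod_univ_castSucc, lz_mul, ih]

/-- the products -/
theorem prod_excl (f : Polynomial ℤ) (j s : ℕ) (b : Fin (s + 1) → ℤ)
    (hb : Function.Injective b) (hj : 2 * s + 1 ≤ j) (ε : ℝ) (hε : 0 < ε) :
    ∃ C x₀ : ℕ, ∀ x H : ℕ, x₀ ≤ x → C * x ^ (2 * s + 1) ≤ H →
      C * x ^ (f.natDegree - 1) ≤ H * x ^ j →
      (((bx j H).filter (fun h => ε * x < |∑ n ∈ Finset.Icc 1 x,
        lz (∏ i, pz f h ((n : ℤ) + b i))|)).card : ℝ) ≤ ε * (2 * H + 1) ^ (j + 1) := by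
  classical
  obtain ⟨C, x₀, h1⟩ := p_node f j s (fun i => b i.castSucc) (b (Fin.last s))
    (fun i e => Fin.castSucc_ne_last i (hb e)) hj ε hε
  refine ⟨C, x₀, fun x H hx hH hd => ?_⟩
  have h2 := h1 x H hx hH hd (fun v => ((∏ i, lz (v i) : ℝ) : ℂ)) (fun v => by
    rw [Complex.norm_real, Real.norm_eq_abs, Finset.abs_prod]
    exact Finset.prod_le_one (fun i _ => abs_nonneg _) (fun i _ => lz_abs _))
  refine le_trans (le_of_eq ?_) h2
  congr 2
  refine Finset.filter_congr fun h _ => ?_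
  have e : ‖∑ n ∈ Finset.Icc 1 x, (lz (pz f h ((n : ℤ) + b (Fin.last s))) : ℂ) *
      (fun v : Fin s → ℤ => ((∏ i, lz (v i) : ℝ) : ℂ))
        (fun i => pz f h ((n : ℤ) + b i.castSucc))‖ =
      |∑ n ∈ Finset.Icc 1 x, lz (∏ i, pz f h ((n : ℤ) + b i))| := by
    rw [← Real.norm_eq_abs, ← Complex.norm_real, Complex.ofReal_sum]
    congr 1
    refine Finset.sum_congr rfl fun n _ => ?_
    beta_reduce
    rw [lz_prod, Fin.prod_univ_castSucc]
    push_cast
    ring
  rw [e]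

end Pool.Agent.PAT
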