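import Mathlib
import Pool.Agent.Lib_helper65.PAT.C

/-!
# PAT: almost all windows (MP_892e4c_nt)

The second moment over the pairs (h, y) of the sum over the window (y, y + w].
-/

set_option autoImplicit false

namespace Pool.Agent.PAT

open Pool.Agent.PS

theorem ioc_sum {E : Type} [AddCommMonoid E] (u : ℕ → E) (y w : ℕ) :
    ∑ n ∈ Finset.Ioc y (y + w), u n = ∑ n ∈ Finset.range w, u (y + n + 1) := by
  have h1 : Finset.Ioc y (y + w) = Finset.Ico (y + 1) (y + w + 1) := by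
    ext n
    rw [Finset.mem_Ioc, Finset.mem_Ico]
    omega
  rw [h1, Finset.sum_Ico_eq_sum_range, show y + w + 1 - (y + 1) = w by omega]
  refine Finset.sum_congr rfl fun n _ => ?_
  rw [show y + 1 + n = y + n + 1 by ring]

theorem win_corr (f : Polynomial ℤ) {j s : ℕ} (a : Fin s → ℤ) (hj : 2 * s + 1 ≤ j)
    {Ψ : ℕ → (Fin s → ℤ) → ℂ} (hΨ : ∀ n v, ‖Ψ n v‖ ≤ 1) (x H w r K : ℕ) (hK : 1 ≤ K)
    (ha : ∀ i, |a i| ≤ ((2 * x : ℕ) : ℤ)) (hw : w ≤ x) :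
    ‖∑ n ∈ Finset.range (w - r), ∑ t ∈ bx j H ×ˢ Finset.range x,
      py f a Ψ t.1 (t.2 + n) * (starRingEnd ℂ) (py f a Ψ t.1 (t.2 + (n + r)))‖ ≤
      w * (∑ n ∈ Finset.Icc 1 (2 * x), ∑ h ∈ bx j H, bq (pq a r) 0 K (Pv f h n) +
        x * (2 * (((j + 1 : ℕ) : ℝ) * (K * ((2 * (2 * x) + 1) ^ (2 * s + 1) : ℕ)) *
          (2 * (H : ℝ) + 1) ^ j))) := by
  set E : ℝ := 2 * (((j + 1 : ℕ) : ℝ) * (K * ((2 * (2 * x) + 1) ^ (2 * s + 1) : ℕ)) *
    (2 * (H : ℝ) + 1) ^ j) with hE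
  have hE0 : 0 ≤ E := by positivity
  have h1 : ∀ n ∈ Finset.range (w - r), ‖∑ t ∈ bx j H ×ˢ Finset.range x,
      py f a Ψ t.1 (t.2 + n) * (starRingEnd ℂ) (py f a Ψ t.1 (t.2 + (n + r)))‖ ≤
      ∑ n ∈ Finset.Icc 1 (2 * x), ∑ h ∈ bx j H, bq (pq a r) 0 K (Pv f h n) + x * E := by
    intro n hn
    rw [Finset.mem_range] at hn
    rw [Finset.sum_product_right]
    calc ‖∑ y ∈ Finset.range x, ∑ h ∈ bx j H,
          py f a Ψ h (y + n) * (starRingEnd ℂ) (py f a Ψ h (y + (n + r)))‖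
        ≤ ∑ y ∈ Finset.range x,
          (∑ h ∈ bx j H, bq (pq a r) 0 K (Pv f h (y + n + 1 + r)) + E) := by
          refine norm_sum_le_of_le _ fun y hy => ?_
          rw [Finset.mem_range] at hy
          have h2 := pat_one f a hj hΨ (2 * x) H (y + n) r K hK ha (by omega)
          rw [show y + (n + r) = y + n + r by ring]
          exact h2
      _ = ∑ y ∈ Finset.range x, ∑ h ∈ bx j H, bq (pq a r) 0 K (Pv f h (y + n + 1 + r)) +
          x * E := by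
          rw [Finset.sum_add_distrib, Finset.sum_const, Finset.card_range, nsmul_eq_mul]
      _ ≤ _ := by
          refine add_le_add ?_ le_rfl
          have e1 : ∑ y ∈ Finset.range x, ∑ h ∈ bx j H,
                bq (pq a r) 0 K (Pv f h (y + n + 1 + r)) =
              ∑ m ∈ Finset.Ico (n + 1 + r) (n + 1 + r + x),
                ∑ h ∈ bx j H, bq (pq a r) 0 K (Pv f h m) := by
            rw [Finset.sum_Ico_eq_sum_range, show n + 1 + r + x - (n + 1 + r) = x by omega]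
            refine Finset.sum_congr rfl fun y _ => ?_
            rw [show y + n + 1 + r = n + 1 + r + y by ring]
          rw [e1]
          refine Finset.sum_le_sum_of_subset_of_nonneg ?_ ?_
          · intro m hm
            rw [Finset.mem_Ico] at hm
            rw [Finset.mem_Icc]
            omega
          · intro m _ _
            exact Finset.sum_nonneg fun h _ => bq_nonneg _ _ _ _
  refine (norm_sum_le_of_le _ h1).trans ?_
  rw [Finset.sum_const, Finset.card_range, nsmul_eq_mul]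
  have h3 : ((w - r : ℕ) : ℝ) ≤ w := by exact_mod_cast Nat.sub_le w r
  have h4 : 0 ≤ ∑ n ∈ Finset.Icc 1 (2 * x), ∑ h ∈ bx j H, bq (pq a r) 0 K (Pv f h n) + x * E :=
    add_nonneg (Finset.sum_nonneg fun n _ => Finset.sum_nonneg fun h _ => bq_nonneg _ _ _ _)
      (by positivity)
  exact mul_le_mul_of_nonneg_right h3 h4

/-- the trivial bound -/
theorem win_triv (f : Polynomial ℤ) {j s : ℕ} (a : Fin s → ℤ)
    {Ψ : ℕ → (Fin s → ℤ) → ℂ} (hΨ : ∀ n v, ‖Ψ n v‖ ≤ 1) (x H w r : ℕ) :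
    ‖∑ n ∈ Finset.range (w - r), ∑ t ∈ bx j H ×ˢ Finset.range x,
      py f a Ψ t.1 (t.2 + n) * (starRingEnd ℂ) (py f a Ψ t.1 (t.2 + (n + r)))‖ ≤
      w * (x * (2 * (H : ℝ) + 1) ^ (j + 1)) := by
  have h1 : ∀ n ∈ Finset.range (w - r), ‖∑ t ∈ bx j H ×ˢ Finset.range x,
      py f a Ψ t.1 (t.2 + n) * (starRingEnd ℂ) (py f a Ψ t.1 (t.2 + (n + r)))‖ ≤
        x * (2 * (H : ℝ) + 1) ^ (j + 1) := by
    intro n _
    calc _ ≤ ∑ t ∈ bx j H ×ˢ Finset.range x, (1 : ℝ) := norm_sum_le_of_le _ fun t _ => by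
          rw [norm_mul, RCLike.norm_conj]
          exact mul_le_one₀ (py_le f a hΨ _ _) (norm_nonneg _) (py_le f a hΨ _ _)
      _ = _ := by
          rw [Finset.sum_const, nsmul_eq_mul, mul_one, Finset.card_product, bx_card,
            Finset.card_range]
          push_cast
          ring
  refine (norm_sum_le_of_le _ h1).trans ?_
  rw [Finset.sum_const, Finset.card_range, nsmul_eq_mul]
  have : ((w - r : ℕ) : ℝ) ≤ w := by exact_mod_cast Nat.sub_le w r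
  gcongr

theorem win_err {K x H C₁ : ℕ} {j e : ℕ} {δ : ℝ} (hδ : 0 ≤ δ) (hx : 1 ≤ x)
    (hC : ((j + 1 : ℕ) : ℝ) * K * 5 ^ e ≤ δ * C₁)
    (hH : C₁ * x ^ e ≤ H) :
    (x : ℝ) * (2 * (((j + 1 : ℕ) : ℝ) * (K * ((2 * (2 * x) + 1) ^ e : ℕ)) *
      (2 * (H : ℝ) + 1) ^ j)) ≤ δ * (x * (2 * (H : ℝ) + 1) ^ (j + 1)) := by
  have hx' : (1 : ℝ) ≤ x := by exact_mod_cast hx
  have hH' : (C₁ : ℝ) * x ^ e ≤ H := by exact_mod_cast hH
  have h0 : ((2 * (2 * x) + 1) ^ e : ℕ) ≤ (5 : ℝ) ^ e * x ^ e := by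
    push_cast
    rw [← mul_pow]
    gcongr
    linarith
  have h1 : 2 * (((j + 1 : ℕ) : ℝ) * (K * ((2 * (2 * x) + 1) ^ e : ℕ))) ≤
      δ * (2 * (H : ℝ) + 1) := by
    calc 2 * (((j + 1 : ℕ) : ℝ) * (K * ((2 * (2 * x) + 1) ^ e : ℕ)))
        ≤ 2 * (((j + 1 : ℕ) : ℝ) * (K * ((5 : ℝ) ^ e * x ^ e))) := by gcongr
      _ = 2 * (((j + 1 : ℕ) : ℝ) * K * 5 ^ e) * x ^ e := by ring
      _ ≤ 2 * (δ * C₁) * x ^ e := by gcongr
      _ = 2 * δ * (C₁ * x ^ e) := by ring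
      _ ≤ 2 * δ * H := by gcongr
      _ ≤ δ * (2 * (H : ℝ) + 1) := by linarith
  calc (x : ℝ) * (2 * (((j + 1 : ℕ) : ℝ) * (K * ((2 * (2 * x) + 1) ^ e : ℕ)) *
      (2 * (H : ℝ) + 1) ^ j))
      = x * (2 * (H : ℝ) + 1) ^ j *
        (2 * (((j + 1 : ℕ) : ℝ) * (K * ((2 * (2 * x) + 1) ^ e : ℕ)))) := by
        ring
    _ ≤ x * (2 * (H : ℝ) + 1) ^ j * (δ * (2 * (H : ℝ) + 1)) := by gcongr
    _ = _ := by rw [pow_succ]; ring

/-- the second moment over the pairs (h, y) -/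
theorem w_main (f : Polynomial ℤ) (j s : ℕ) (a : Fin s → ℤ) (ha : ∀ i, a i ≠ 0)
    (hj : 2 * s + 1 ≤ j) (ε : ℝ) (hε : 0 < ε) :
    ∃ C : ℕ, ∀ x H w : ℕ, C ≤ w → w ≤ x → C * x ^ (2 * s + 1) ≤ H →
      C * x ^ (f.natDegree - 1) ≤ H * x ^ j →
      ∀ Ψ : ℕ → (Fin s → ℤ) → ℂ, (∀ n v, ‖Ψ n v‖ ≤ 1) →
      ∑ t ∈ bx j H ×ˢ Finset.range x, ‖∑ n ∈ Finset.Ioc t.2 (t.2 + w),
        (lz (Pv f t.1 n) : ℂ) * Ψ n (fun i => hv t.1 ((n : ℤ) + a i))‖ ^ 2 ≤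
        ε * w ^ 2 * (x * (2 * H + 1) ^ (j + 1)) := by
  set δ : ℝ := ε / 32 with hδ
  have hδp : 0 < δ := by positivity
  obtain ⟨C, x₁, hC1, htr⟩ := transfer f j δ hδp
  have hCp : (1 : ℝ) ≤ C := by exact_mod_cast hC1
  set η : ℝ := δ / (C : ℝ) ^ 2 with hη
  have hηp : 0 < η := by positivity
  set M : ℕ := ⌈(8 + 16 * s) / ε⌉₊ + 1 with hM
  have hM1 : 1 ≤ M := by omega
  have hMε : (8 + 16 * s) / ε ≤ (M : ℝ) := by
    calc (8 + 16 * s) / ε ≤ (⌈(8 + 16 * (s : ℝ)) / ε⌉₊ : ℝ) := Nat.le_ceil _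
      _ ≤ (M : ℝ) := by rw [hM]; push_cast; linarith
  have hMp : (0 : ℝ) < M := by exact_mod_cast hM1
  have hq : ∀ r : ℕ, ∃ N₀ : ℕ, pq a r ≠ 0 → ∀ N : ℕ, N₀ ≤ N → ∃ X₀ : ℕ, ∀ X : ℕ, X₀ ≤ X →
      ∀ θ : ℝ, ∑ A ∈ Iz X, bq (pq a r) θ N A ≤ η * X := by
    intro r
    by_cases hr : pq a r ≠ 0
    · obtain ⟨N₀, h⟩ := mr_q (pq a r) hr η hηp
      exact ⟨N₀, fun _ => h⟩
    · exact ⟨0, fun h => absurd h hr⟩
  choose N₀ hN₀ using hq
  set K : ℕ := (Finset.range M).sup N₀ + 1 with hK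
  have hK1 : 1 ≤ K := by omega
  have hq2 : ∀ r : ℕ, ∃ X₀ : ℕ, pq a r ≠ 0 → r < M → ∀ X : ℕ, X₀ ≤ X →
      ∀ θ : ℝ, ∑ A ∈ Iz X, bq (pq a r) θ K A ≤ η * X := by
    intro r
    by_cases hr : pq a r ≠ 0 ∧ r < M
    · obtain ⟨X₀, h⟩ := hN₀ r hr.1 K (by
        calc N₀ r ≤ (Finset.range M).sup N₀ := Finset.le_sup (Finset.mem_range.mpr hr.2)
          _ ≤ K := by omega)
      exact ⟨X₀, fun _ _ => h⟩
    · exact ⟨0, fun h1 h2 => absurd ⟨h1, h2⟩ hr⟩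
  choose X₀ hX₀ using hq2
  set C₁ : ℕ := ⌈((j + 1 : ℕ) : ℝ) * K * 5 ^ (2 * s + 1) / δ⌉₊ + 1 with hC₁
  have hC₁1 : 1 ≤ C₁ := by omega
  have hC₁K : ((j + 1 : ℕ) : ℝ) * K * 5 ^ (2 * s + 1) ≤ δ * C₁ := by
    have : ((j + 1 : ℕ) : ℝ) * K * 5 ^ (2 * s + 1) / δ ≤ (C₁ : ℝ) := by
      calc _ ≤ (⌈((j + 1 : ℕ) : ℝ) * K * 5 ^ (2 * s + 1) / δ⌉₊ : ℝ) := Nat.le_ceil _
        _ ≤ (C₁ : ℝ) := by rw [hC₁]; push_cast; linarith
    rw [div_le_iff₀ hδp] at this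
    linarith
  set A : ℕ := (Finset.univ : Finset (Fin s)).sup (fun i => (a i).natAbs) with hA
  obtain ⟨D2, hD2⟩ : ∃ D2 : ℕ, D2 = 2 ^ (f.natDegree - 1) := ⟨_, rfl⟩
  obtain ⟨C₂, hC₂⟩ : ∃ C₂ : ℕ, C₂ = C₁ + x₁ + M + (Finset.range M).sup X₀ + A + D2 + 2 := ⟨_, rfl⟩
  refine ⟨C₂, fun x H w hw hwx hH1 hH2 Ψ hΨ => ?_⟩
  have hx1 : 1 ≤ x := by omega
  have hax : ∀ i, |a i| ≤ ((2 * x : ℕ) : ℤ) := by
    intro i
    have h1 : (a i).natAbs ≤ A := by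
      rw [hA]
      exact Finset.le_sup (f := fun i => (a i).natAbs) (Finset.mem_univ i)
    rw [Int.abs_eq_natAbs]
    exact_mod_cast (by omega : (a i).natAbs ≤ 2 * x)
  have hxR : (1 : ℝ) ≤ x := by exact_mod_cast hx1
  have hH1' : C₁ * x ^ (2 * s + 1) ≤ H := (Nat.mul_le_mul_right _ (by omega)).trans hH1
  have hxH : 2 * x ≤ H := by
    calc 2 * x = 2 * x ^ 1 := by ring
      _ ≤ C₂ * x ^ (2 * s + 1) := Nat.mul_le_mul (by omega) (Nat.pow_le_pow_right hx1 (by omega))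
      _ ≤ H := hH1
  set T : ℝ := (2 * (H : ℝ) + 1) ^ (j + 1) with hT
  have hTp : 0 < T := by positivity
  set R : ℕ := max ((2 * x) ^ f.natDegree) (H * (2 * x) ^ j) with hR
  have h2x1 : 1 ≤ 2 * x := by omega
  have hRx : 2 * x ≤ R := by
    calc 2 * x = 2 * x * 1 := (mul_one _).symm
      _ ≤ H * (2 * x) ^ j := Nat.mul_le_mul hxH (Nat.one_le_pow _ _ h2x1)
      _ ≤ R := le_max_right _ _
  have hRp : (0 : ℝ) < R := by
    have : 0 < R := by omega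
    exact_mod_cast this
  have hdeg : (2 * x) ^ (f.natDegree - 1) ≤ H * (2 * x) ^ j := by
    calc (2 * x) ^ (f.natDegree - 1) = 2 ^ (f.natDegree - 1) * x ^ (f.natDegree - 1) := by
          rw [mul_pow]
      _ ≤ C₂ * x ^ (f.natDegree - 1) := Nat.mul_le_mul_right _ (by rw [← hD2]; omega)
      _ ≤ H * x ^ j := hH2
      _ ≤ H * (2 * x) ^ j := Nat.mul_le_mul_left _ (Nat.pow_le_pow_left (by omega) _)
  -- the correlations
  have hcorr : ∀ r ∈ Finset.Ico 1 M, ‖∑ n ∈ Finset.range (w - r),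
      ∑ t ∈ bx j H ×ˢ Finset.range x,
      py f a Ψ t.1 (t.2 + n) * (starRingEnd ℂ) (py f a Ψ t.1 (t.2 + (n + r)))‖ ≤
        5 * δ * (w * (x * T)) + (if pq a r = 0 then w * (x * T) else 0) := by
    intro r hr
    rw [Finset.mem_Ico] at hr
    by_cases h0 : pq a r = 0
    · rw [if_pos h0]
      have h1 := win_triv (j := j) f a hΨ x H w r
      have h2 : 0 ≤ 5 * δ * (w * (x * T)) := by positivity
      rw [← hT] at h1
      linarith
    · rw [if_neg h0, add_zero]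
      have h1 := win_corr f a hj hΨ x H w r K hK1 hax hwx
      have h2 := htr (2 * x) H (by omega) hdeg (Or.inr hxH) (fun b => bq (pq a r) 0 K b)
        (fun b => ⟨bq_nonneg _ _ _ _, bq_le _ _ _ _⟩)
      have h3 := hX₀ r h0 hr.2 (C * R) (by
        calc X₀ r ≤ (Finset.range M).sup X₀ := Finset.le_sup (Finset.mem_range.mpr hr.2)
          _ ≤ 2 * x := by omega
          _ ≤ R := hRx
          _ = 1 * R := (one_mul R).symm
          _ ≤ C * R := Nat.mul_le_mul_right R hC1) 0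
      have h4 : (C : ℝ) / (R : ℝ) * ∑ b ∈ Iz (C * R), bq (pq a r) 0 K b ≤ δ := by
        calc (C : ℝ) / (R : ℝ) * ∑ b ∈ Iz (C * R), bq (pq a r) 0 K b
            ≤ (C : ℝ) / (R : ℝ) * (η * ((C * R : ℕ) : ℝ)) := by gcongr
          _ = δ := by
              rw [hη]
              push_cast
              field_simp
      have h5 := win_err (j := j) hδp.le hx1 hC₁K hH1'
      have h6 : ∑ n ∈ Finset.Icc 1 (2 * x), ∑ h ∈ bx j H, bq (pq a r) 0 K (Pv f h n) ≤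
          2 * x * T * (δ + δ) := by
        refine h2.trans ?_
        rw [← hR]
        push_cast
        gcongr
      refine h1.trans ?_
      have h7 : ∑ n ∈ Finset.Icc 1 (2 * x), ∑ h ∈ bx j H, bq (pq a r) 0 K (Pv f h n) +
          x * (2 * (((j + 1 : ℕ) : ℝ) * (K * ((2 * (2 * x) + 1) ^ (2 * s + 1) : ℕ)) *
          (2 * (H : ℝ) + 1) ^ j)) ≤ 5 * δ * (x * T) := by linarith
      calc _ ≤ (w : ℝ) * (5 * δ * (x * T)) := mul_le_mul_of_nonneg_left h7 (Nat.cast_nonneg w)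
        _ = _ := by ring
  have hvd := vdc (bx j H ×ˢ Finset.range x) (fun t n => py f a Ψ t.1 (t.2 + n)) w M hM1 (by omega)
    (fun t n => py_le f a hΨ t.1 _)
  have hcard : ((bx j H ×ˢ Finset.range x).card : ℝ) = x * T := by
    rw [Finset.card_product, bx_card, Finset.card_range, hT]
    push_cast
    ring
  rw [hcard] at hvd
  have hwin : ∀ t : (Fin (j + 1) → ℤ) × ℕ, ∑ n ∈ Finset.Ioc t.2 (t.2 + w),
      (lz (Pv f t.1 n) : ℂ) * Ψ n (fun i => hv t.1 ((n : ℤ) + a i)) =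
        ∑ n ∈ Finset.range w, py f a Ψ t.1 (t.2 + n) := by
    intro t
    rw [ioc_sum]
    rfl
  simp_rw [hwin]
  refine hvd.trans ?_
  have hs : ∑ r ∈ Finset.Ico 1 M, ‖∑ n ∈ Finset.range (w - r),
      ∑ t ∈ bx j H ×ˢ Finset.range x,
      py f a Ψ t.1 (t.2 + n) * (starRingEnd ℂ) (py f a Ψ t.1 (t.2 + (n + r)))‖ ≤
        M * (5 * δ * (w * (x * T))) + s * (w * (x * T)) := by
    calc ∑ r ∈ Finset.Ico 1 M, ‖∑ n ∈ Finset.range (w - r),
        ∑ t ∈ bx j H ×ˢ Finset.range x,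
        py f a Ψ t.1 (t.2 + n) * (starRingEnd ℂ) (py f a Ψ t.1 (t.2 + (n + r)))‖
        ≤ ∑ r ∈ Finset.Ico 1 M,
          (5 * δ * (w * (x * T)) + (if pq a r = 0 then w * (x * T) else 0)) :=
          Finset.sum_le_sum hcorr
      _ = ((M - 1 : ℕ) : ℝ) * (5 * δ * (w * (x * T))) +
          (((Finset.Ico 1 M).filter (fun r : ℕ => pq a r = 0)).card : ℝ) * (w * (x * T)) := by
          rw [Finset.sum_add_distrib, Finset.sum_const, Nat.card_Ico, nsmul_eq_mul,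
            ← Finset.sum_filter, Finset.sum_const, nsmul_eq_mul]
      _ ≤ M * (5 * δ * (w * (x * T))) + s * (w * (x * T)) := by
          have h1 : ((M - 1 : ℕ) : ℝ) ≤ M := by exact_mod_cast Nat.sub_le M 1
          have h2 : (((Finset.Ico 1 M).filter (fun r : ℕ => pq a r = 0)).card : ℝ) ≤ s := by
            exact_mod_cast pq_card ha M
          gcongr
  have h8 : 8 + 16 * (s : ℝ) ≤ ε * M := by
    rw [div_le_iff₀ hε] at hMε
    linarith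
  have hwR : (0 : ℝ) < w := by
    have : 0 < w := by omega
    exact_mod_cast this
  set Y : ℝ := (w : ℝ) ^ 2 * (x * T) with hY
  have hYp : 0 < Y := by positivity
  have h2M : 2 * (w : ℝ) ^ 2 * (x * T) / M + 4 * w / M * (s * (w * (x * T))) ≤ ε / 4 * Y := by
    have e : 2 * (w : ℝ) ^ 2 * (x * T) / M + 4 * w / M * (s * (w * (x * T))) =
        (2 + 4 * s) * Y / M := by rw [hY]; ring
    rw [e, div_le_iff₀ hMp]
    nlinarith
  calc 2 * (w : ℝ) ^ 2 * (x * T) / M + 4 * w / M * ∑ r ∈ Finset.Ico 1 M,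
        ‖∑ n ∈ Finset.range (w - r), ∑ t ∈ bx j H ×ˢ Finset.range x,
        py f a Ψ t.1 (t.2 + n) * (starRingEnd ℂ) (py f a Ψ t.1 (t.2 + (n + r)))‖
      ≤ 2 * (w : ℝ) ^ 2 * (x * T) / M +
          4 * w / M * (M * (5 * δ * (w * (x * T))) + s * (w * (x * T))) := by gcongr
    _ = (2 * (w : ℝ) ^ 2 * (x * T) / M + 4 * w / M * (s * (w * (x * T)))) + 20 * δ * Y := by
        rw [hY]
        field_simp
        ring
    _ ≤ ε / 4 * Y + 20 * δ * Y := by linarith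
    _ ≤ ε * Y := by
        rw [hδ]
        have hp : 0 < ε * Y := by positivity
        nlinarith
    _ = _ := by rw [hY]; ring

/-- the exceptional pairs -/
theorem w_pairs (f : Polynomial ℤ) (j s : ℕ) (a : Fin s → ℤ) (ha : ∀ i, a i ≠ 0)
    (hj : 2 * s + 1 ≤ j) (ε : ℝ) (hε : 0 < ε) :
    ∃ C : ℕ, ∀ x H w : ℕ, C ≤ w → w ≤ x → C * x ^ (2 * s + 1) ≤ H →
      C * x ^ (f.natDegree - 1) ≤ H * x ^ j →
      ∀ Ψ : ℕ → (Fin s → ℤ) → ℂ, (∀ n v, ‖Ψ n v‖ ≤ 1) →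
      (((bx j H ×ˢ Finset.range x).filter (fun t => ε * w < ‖∑ n ∈ Finset.Ioc t.2 (t.2 + w),
        (lz (Pv f t.1 n) : ℂ) * Ψ n (fun i => hv t.1 ((n : ℤ) + a i))‖)).card : ℝ) ≤
        ε * (x * (2 * H + 1) ^ (j + 1)) := by
  classical
  obtain ⟨C, hc⟩ := w_main f j s a ha hj (ε ^ 3) (by positivity)
  refine ⟨C + 1, ?_⟩
  intro x H w hw hwx hCx hC Ψ hΨ
  have hw1 : 1 ≤ w := by omega
  have hwR : (0 : ℝ) < w := by exact_mod_cast hw1
  have hS := hc x H w (by omega) hwx ((Nat.mul_le_mul_right _ (by omega)).trans hCx)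
    ((Nat.mul_le_mul_right _ (by omega)).trans hC) Ψ hΨ
  have h1 : (((bx j H ×ˢ Finset.range x).filter (fun t => ε * w <
      ‖∑ n ∈ Finset.Ioc t.2 (t.2 + w),
        (lz (Pv f t.1 n) : ℂ) * Ψ n (fun i => hv t.1 ((n : ℤ) + a i))‖)).card : ℝ) *
        (ε * w) ^ 2 ≤ ∑ t ∈ bx j H ×ˢ Finset.range x, ‖∑ n ∈ Finset.Ioc t.2 (t.2 + w),
        (lz (Pv f t.1 n) : ℂ) * Ψ n (fun i => hv t.1 ((n : ℤ) + a i))‖ ^ 2 := by
    rw [← nsmul_eq_mul, ← Finset.sum_const]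
    refine (Finset.sum_le_sum fun t ht => ?_).trans
      (Finset.sum_le_sum_of_subset_of_nonneg (Finset.filter_subset _ _) fun t _ _ => ?_)
    · have h2 := (Finset.mem_filter.1 ht).2
      have h3 : 0 < ε * w := by positivity
      exact pow_le_pow_left₀ h3.le h2.le 2
    · positivity
  have hp : (0 : ℝ) < (ε * w) ^ 2 := by positivity
  refine le_of_mul_le_mul_right ((h1.trans hS).trans (le_of_eq ?_)) hp
  ring

end Pool.Agent.PAT
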