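import Mathlib
import Pool.Agent.Lib_helper65.PAT.D
import Pool.Agent.Lib_helper65.PAT.E

/-!
# PAT: sign patterns in almost all windows (MP_892e4c_nt)
-/

set_option autoImplicit false

namespace Pool.Agent.PAT

open Pool.Agent.PS

theorem rng_win (u : ℤ → ℂ) (hu : ∀ m, ‖u m‖ ≤ 1) (y w : ℕ) (b : ℤ) :
    ‖∑ n ∈ Finset.Ioc y (y + w), u ((n : ℤ) + b) - ∑ n ∈ Finset.Ioc y (y + w), u (n : ℤ)‖ ≤
      2 * (b.natAbs : ℝ) := by
  have h1 := rng_int (fun m => u (m + y)) (fun m => hu _) w b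
  have e : ∀ c : ℤ, ∑ n ∈ Finset.Ioc y (y + w), u ((n : ℤ) + c) =
      ∑ n ∈ Finset.Icc 1 w, u ((n : ℤ) + c + y) := by
    intro c
    rw [ioc_sum (fun n : ℕ => u ((n : ℤ) + c)), rng_one (fun m => u (m + c + y))]
    refine Finset.sum_congr rfl fun n _ => ?_
    congr 1
    push_cast
    ring
  have e0 : ∑ n ∈ Finset.Ioc y (y + w), u (n : ℤ) =
      ∑ n ∈ Finset.Icc 1 w, u ((n : ℤ) + y) := by
    have h2 := e 0
    simpa using h2
  rw [e, e0]
  exact h1

/-- the correlation with a function of the values at other places, in windows -/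
theorem w_node (f : Polynomial ℤ) (j s : ℕ) (b : Fin s → ℤ) (b0 : ℤ) (hb : ∀ i, b i ≠ b0)
    (hj : 2 * s + 1 ≤ j) (ε : ℝ) (hε : 0 < ε) :
    ∃ C : ℕ, ∀ x H w : ℕ, C ≤ w → w ≤ x → C * x ^ (2 * s + 1) ≤ H →
      C * x ^ (f.natDegree - 1) ≤ H * x ^ j →
      ∀ Ψ : (Fin s → ℤ) → ℂ, (∀ v, ‖Ψ v‖ ≤ 1) →
      (((bx j H ×ˢ Finset.range x).filter (fun t => ε * w < ‖∑ n ∈ Finset.Ioc t.2 (t.2 + w),
        (lz (pz f t.1 ((n : ℤ) + b0)) : ℂ) * Ψ (fun i => pz f t.1 ((n : ℤ) + b i))‖)).card : ℝ) ≤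
        ε * (x * (2 * H + 1) ^ (j + 1)) := by
  classical
  obtain ⟨C, hc⟩ := w_pairs f j s (fun i => b i - b0) (fun i => sub_ne_zero.2 (hb i)) hj
    (ε / 2) (by positivity)
  refine ⟨C + ⌈4 * (b0.natAbs : ℝ) / ε⌉₊, fun x H w hw hwx hH hC Ψ hΨ => ?_⟩
  have h1 := hc x H w (by omega) hwx ((Nat.mul_le_mul_right _ (by omega)).trans hH)
    ((Nat.mul_le_mul_right _ (by omega)).trans hC)
    (fun n v => Ψ (fun i => f.eval ((n : ℤ) + (b i - b0)) + v i)) (fun n v => hΨ _)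
  have hx2 : 4 * (b0.natAbs : ℝ) ≤ ε * w := by
    have : 4 * (b0.natAbs : ℝ) / ε ≤ (w : ℝ) := by
      calc _ ≤ (⌈4 * (b0.natAbs : ℝ) / ε⌉₊ : ℝ) := Nat.le_ceil _
        _ ≤ w := Nat.cast_le.2 (by omega)
    rw [div_le_iff₀ hε] at this
    linarith
  have hT : (0 : ℝ) ≤ x * (2 * H + 1) ^ (j + 1) := by positivity
  refine le_trans ?_ (h1.trans (by nlinarith))
  refine Nat.cast_le.2 (Finset.card_le_card ?_)
  intro t ht
  rw [Finset.mem_filter] at ht ⊢
  refine ⟨ht.1, ?_⟩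
  have h2 := rng_win (fun m => (lz (pz f t.1 m) : ℂ) * Ψ (fun i => pz f t.1 (m + (b i - b0))))
    (fun m => by
      rw [norm_mul]
      exact mul_le_one₀ (lz_norm _) (norm_nonneg _) (hΨ _)) t.2 w b0
  have e1 : ∑ n ∈ Finset.Ioc t.2 (t.2 + w), (lz (pz f t.1 ((n : ℤ) + b0)) : ℂ) *
      Ψ (fun i => pz f t.1 ((n : ℤ) + b i)) = ∑ n ∈ Finset.Ioc t.2 (t.2 + w),
        (fun m => (lz (pz f t.1 m) : ℂ) * Ψ (fun i => pz f t.1 (m + (b i - b0))))
          ((n : ℤ) + b0) := by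
    refine Finset.sum_congr rfl fun n _ => ?_
    beta_reduce
    congr 2
    funext i
    congr 1
    ring
  have e2 : ∑ n ∈ Finset.Ioc t.2 (t.2 + w), (lz (Pv f t.1 n) : ℂ) *
      Ψ (fun i => f.eval ((n : ℤ) + (b i - b0)) + hv t.1 ((n : ℤ) + (b i - b0))) =
        ∑ n ∈ Finset.Ioc t.2 (t.2 + w),
        (fun m => (lz (pz f t.1 m) : ℂ) * Ψ (fun i => pz f t.1 (m + (b i - b0)))) (n : ℤ) := rfl
  rw [e2]
  have h3 := ht.2
  rw [e1] at h3
  have h4 := norm_sub_norm_le (∑ n ∈ Finset.Ioc t.2 (t.2 + w),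
        (fun m => (lz (pz f t.1 m) : ℂ) * Ψ (fun i => pz f t.1 (m + (b i - b0)))) ((n : ℤ) + b0))
    (∑ n ∈ Finset.Ioc t.2 (t.2 + w),
        (fun m => (lz (pz f t.1 m) : ℂ) * Ψ (fun i => pz f t.1 (m + (b i - b0)))) (n : ℤ))
  linarith

theorem zw_excl (f : Polynomial ℤ) (j x H w : ℕ) (b0 : ℤ) (ε : ℝ) (hε : 0 < ε) (hw : 1 ≤ w)
    (hH : 1 ≤ ε ^ 2 * (2 * H + 1)) :
    (((bx j H ×ˢ Finset.range x).filter
      (fun t => ε * w < zc f t.1 b0 (Finset.Ioc t.2 (t.2 + w)))).card : ℝ) ≤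
      ε * (x * (2 * H + 1) ^ (j + 1)) := by
  classical
  have hwR : (0 : ℝ) < w := by exact_mod_cast hw
  have h1 : ∑ t ∈ bx j H ×ˢ Finset.range x, (zc f t.1 b0 (Finset.Ioc t.2 (t.2 + w)) : ℝ) ≤
      x * (w * (2 * (H : ℝ) + 1) ^ j) := by
    have h2 : ∑ t ∈ bx j H ×ˢ Finset.range x, zc f t.1 b0 (Finset.Ioc t.2 (t.2 + w)) ≤
        x * (w * (2 * H + 1) ^ j) := by
      rw [Finset.sum_product_right]
      calc _ ≤ ∑ y ∈ Finset.range x, w * (2 * H + 1) ^ j := by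
            refine Finset.sum_le_sum fun y _ => ?_
            have h3 := zc_sum f j H b0 (Finset.Ioc y (y + w))
            rw [Nat.card_Ioc, Nat.add_sub_cancel_left] at h3
            exact h3
        _ = _ := by rw [Finset.sum_const, Finset.card_range, smul_eq_mul]
    exact_mod_cast h2
  have h3 : (((bx j H ×ˢ Finset.range x).filter
      (fun t => ε * w < zc f t.1 b0 (Finset.Ioc t.2 (t.2 + w)))).card : ℝ) *
      (ε * w) ≤ x * (w * (2 * (H : ℝ) + 1) ^ j) := by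
    refine le_trans ?_ h1
    rw [← nsmul_eq_mul, ← Finset.sum_const]
    refine (Finset.sum_le_sum fun t ht => ?_).trans
      (Finset.sum_le_sum_of_subset_of_nonneg (Finset.filter_subset _ _) fun t _ _ => ?_)
    · exact (Finset.mem_filter.1 ht).2.le
    · positivity
  have hp : (0 : ℝ) < ε * w := by positivity
  refine le_of_mul_le_mul_right (h3.trans ?_) hp
  calc (x : ℝ) * (w * (2 * (H : ℝ) + 1) ^ j) = x * (w * (2 * (H : ℝ) + 1) ^ j) * 1 := by ring
    _ ≤ x * (w * (2 * (H : ℝ) + 1) ^ j) * (ε ^ 2 * (2 * H + 1)) := by gcongr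
    _ = _ := by rw [pow_succ]; ring

/-- the sign patterns in windows, one pattern at a time -/
theorem wc_main (f : Polynomial ℤ) (j : ℕ) : ∀ (k : ℕ) (b : Fin k → ℤ) (σ : Fin k → ℝ),
    Function.Injective b → (∀ i, σ i = 1 ∨ σ i = -1) → 2 * k ≤ j + 1 → ∀ ε : ℝ, 0 < ε →
    ∃ C : ℕ, ∀ x H w : ℕ, C ≤ w → w ≤ x → C * x ^ (2 * k - 1) ≤ H →
      C * x ^ (f.natDegree - 1) ≤ H * x ^ j →
      (((bx j H ×ˢ Finset.range x).filter
        (fun t => ε * w < |pc f t.1 b σ (Finset.Ioc t.2 (t.2 + w)) - w / 2 ^ k|)).card : ℝ) ≤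
        ε * (x * (2 * H + 1) ^ (j + 1)) := by
  classical
  intro k
  induction k with
  | zero =>
    intro b σ hb hσ hk ε hε
    refine ⟨0, fun x H w _ _ _ _ => ?_⟩
    have h1 : (bx j H ×ˢ Finset.range x).filter
        (fun t => ε * w < |pc f t.1 b σ (Finset.Ioc t.2 (t.2 + w)) - w / 2 ^ 0|) = ∅ := by
      rw [Finset.filter_eq_empty_iff]
      intro t _
      have h2 : pc f t.1 b σ (Finset.Ioc t.2 (t.2 + w)) = w := by
        unfold pc
        rw [Finset.filter_true_of_mem (fun n _ i => i.elim0), Nat.card_Ioc,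
          Nat.add_sub_cancel_left]
      rw [h2]
      simp
      positivity
    rw [h1]
    simp
    positivity
  | succ k ih =>
    intro b σ hb hσ hk ε hε
    set δ : ℝ := ε / 4 with hδ
    have hδp : 0 < δ := by positivity
    obtain ⟨C₁, h1⟩ := ih (fun i => b i.castSucc) (fun i => σ i.castSucc)
      (hb.comp (Fin.castSucc_injective k)) (fun i => hσ _) (by omega) δ hδp
    obtain ⟨C₂, h2⟩ := w_node f j k (fun i => b i.castSucc) (b (Fin.last k))
      (fun i e => Fin.castSucc_ne_last i (hb e)) (by omega) δ hδp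
    refine ⟨C₁ + C₂ + ⌈1 / δ ^ 2⌉₊ + 1, fun x H w hw hwx hH hC => ?_⟩
    have hw1 : 1 ≤ w := by omega
    have hx1 : 1 ≤ x := by omega
    have hwR : (0 : ℝ) < w := by exact_mod_cast hw1
    have e0 : 2 * (k + 1) - 1 = 2 * k + 1 := by omega
    rw [e0] at hH
    have g1 : C₁ * x ^ (2 * k - 1) ≤ H := by
      calc C₁ * x ^ (2 * k - 1) ≤ (C₁ + C₂ + ⌈1 / δ ^ 2⌉₊ + 1) * x ^ (2 * k + 1) :=
            Nat.mul_le_mul (by omega) (Nat.pow_le_pow_right hx1 (by omega))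
        _ ≤ H := hH
    have g2 : C₂ * x ^ (2 * k + 1) ≤ H :=
      (Nat.mul_le_mul_right _ (by omega)).trans hH
    have g3 : C₁ * x ^ (f.natDegree - 1) ≤ H * x ^ j :=
      (Nat.mul_le_mul_right _ (by omega)).trans hC
    have g4 : C₂ * x ^ (f.natDegree - 1) ≤ H * x ^ j :=
      (Nat.mul_le_mul_right _ (by omega)).trans hC
    have g5 : 1 ≤ δ ^ 2 * (2 * H + 1) := by
      have a1 : ⌈1 / δ ^ 2⌉₊ ≤ H := by
        calc ⌈1 / δ ^ 2⌉₊ = ⌈1 / δ ^ 2⌉₊ * 1 := (mul_one _).symm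
          _ ≤ (C₁ + C₂ + ⌈1 / δ ^ 2⌉₊ + 1) * x ^ (2 * k + 1) :=
            Nat.mul_le_mul (by omega) (Nat.one_le_pow _ _ hx1)
          _ ≤ H := hH
      have a2 : 1 / δ ^ 2 ≤ (H : ℝ) := (Nat.le_ceil _).trans (by exact_mod_cast a1)
      rw [div_le_iff₀ (by positivity)] at a2
      have a3 : 0 < δ ^ 2 := by positivity
      have a4 : (0 : ℝ) ≤ H := Nat.cast_nonneg H
      nlinarith
    have b1 := h1 x H w (by omega) hwx g1 g3
    have b2 := h2 x H w (by omega) hwx g2 g4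
      (fun v : Fin k → ℤ => if ∀ i, lz (v i) = σ i.castSucc then (1 : ℂ) else 0)
      (fun v => by split_ifs <;> simp)
    have b3 := zw_excl f j x H w (b (Fin.last k)) δ hδp hw1 g5
    set E1 := (bx j H ×ˢ Finset.range x).filter (fun t => δ * w <
      |pc f t.1 (fun i => b i.castSucc)
        (fun i => σ i.castSucc) (Finset.Ioc t.2 (t.2 + w)) - w / 2 ^ k|) with hE1
    set E2 := (bx j H ×ˢ Finset.range x).filter (fun t => δ * w <
      ‖∑ n ∈ Finset.Ioc t.2 (t.2 + w),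
        (lz (pz f t.1 ((n : ℤ) + b (Fin.last k))) : ℂ) *
        (fun v : Fin k → ℤ => if ∀ i, lz (v i) = σ i.castSucc then (1 : ℂ) else 0)
          (fun i => pz f t.1 ((n : ℤ) + b i.castSucc))‖) with hE2
    set E3 := (bx j H ×ˢ Finset.range x).filter
      (fun t => δ * w < zc f t.1 (b (Fin.last k)) (Finset.Ioc t.2 (t.2 + w))) with hE3
    have hsub : (bx j H ×ˢ Finset.range x).filter (fun t => ε * w <
        |pc f t.1 b σ (Finset.Ioc t.2 (t.2 + w)) - w / 2 ^ (k + 1)|) ⊆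
        E1 ∪ (E2 ∪ E3) := by
      intro t ht
      rw [Finset.mem_filter] at ht
      by_contra hcon
      rw [Finset.mem_union, Finset.mem_union, hE1, hE2, hE3, Finset.mem_filter, Finset.mem_filter,
        Finset.mem_filter] at hcon
      push Not at hcon
      obtain ⟨c1, c2, c3⟩ := hcon
      have d1 := c1 ht.1
      have d2 := c2 ht.1
      have d3 := c3 ht.1
      have d4 := pc_step f t.1 b σ hσ (Finset.Ioc t.2 (t.2 + w))
      have d5 : |pc f t.1 b σ (Finset.Ioc t.2 (t.2 + w)) - w / 2 ^ (k + 1)| ≤ ε * w := by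
        have d6 := abs_le.1 d1
        have d7 := abs_le.1 (d4.trans (add_le_add d2 d3))
        have e1 : (w : ℝ) / 2 ^ (k + 1) = (w / 2 ^ k) / 2 := by
          rw [pow_succ]
          field_simp
        rw [e1, abs_le]
        have hp : 0 < δ * w := by positivity
        have e2 : ε * w = 4 * (δ * w) := by rw [hδ]; ring
        rw [e2]
        constructor <;> linarith [d6.1, d6.2, d7.1, d7.2]
      linarith [ht.2]
    have hT : (0 : ℝ) ≤ x * (2 * H + 1) ^ (j + 1) := by positivity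
    calc _ ≤ (((E1 ∪ (E2 ∪ E3)).card : ℕ) : ℝ) := Nat.cast_le.2 (Finset.card_le_card hsub)
      _ ≤ (((E1.card + (E2.card + E3.card)) : ℕ) : ℝ) :=
          Nat.cast_le.2 ((Finset.card_union_le _ _).trans
            (Nat.add_le_add_left (Finset.card_union_le _ _) _))
      _ ≤ δ * (x * (2 * H + 1) ^ (j + 1)) + (δ * (x * (2 * H + 1) ^ (j + 1)) +
            δ * (x * (2 * H + 1) ^ (j + 1))) := by
          push_cast
          linarith
      _ ≤ _ := by
          rw [hδ]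
          nlinarith

end Pool.Agent.PAT
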