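import Mathlib
import Pool.Agent.Lib_helper65.PAT.F

/-!
# PAT: uniformity in the length of the windows (MP_892e4c_nt)

Sums over long windows are averages of sums over windows of a fixed length `M`, so the exceptional set of
the polynomials does not depend on the length.
-/

set_option autoImplicit false

namespace Pool.Agent.PAT

open Pool.Agent.PS

theorem avg_one (u : ℕ → ℂ) (hu : ∀ n, ‖u n‖ ≤ 1) (M w y : ℕ) :
    (M : ℝ) * ‖∑ n ∈ Finset.Ioc y (y + w), u n‖ ≤
      ∑ z ∈ Finset.range w, ‖∑ n ∈ Finset.Ioc (z + y) (z + y + M), u n‖ + 2 * M ^ 2 := by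
  set S : ℂ := ∑ n ∈ Finset.Ioc y (y + w), u n with hS
  set V : ℕ → ℂ := fun i => ∑ z ∈ Finset.range w, u (y + z + 1 + i) with hV
  have h0 : ∀ i : ℕ, ‖V i - S‖ ≤ 2 * i := by
    intro i
    have h1 := rng_nat (fun m => u (m + y).toNat) (fun m => hu _) w i
    have e1 : ∑ n ∈ Finset.Icc 1 w, (fun m : ℤ => u (m + y).toNat) ((n : ℤ) + i) = V i := by
      rw [rng_one (fun m => (fun m : ℤ => u (m + y).toNat) (m + i))]
      refine Finset.sum_congr rfl fun n _ => ?_
      beta_reduce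
      congr 1
      omega
    have e2 : ∑ n ∈ Finset.Icc 1 w, (fun m : ℤ => u (m + y).toNat) (n : ℤ) = S := by
      rw [rng_one (fun m : ℤ => u (m + y).toNat), hS, ioc_sum]
      refine Finset.sum_congr rfl fun n _ => ?_
      congr 1
      omega
    rw [e1, e2] at h1
    exact h1
  have h1 : ∑ z ∈ Finset.range w, ∑ n ∈ Finset.Ioc (z + y) (z + y + M), u n =
      ∑ i ∈ Finset.range M, V i := by
    rw [hV, Finset.sum_comm]
    refine Finset.sum_congr rfl fun z _ => ?_
    rw [ioc_sum]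
    refine Finset.sum_congr rfl fun i _ => ?_
    congr 1
    ring
  have h2 : (M : ℂ) * S = ∑ i ∈ Finset.range M, V i - ∑ i ∈ Finset.range M, (V i - S) := by
    rw [Finset.sum_sub_distrib]
    simp
  have h3 : ‖∑ i ∈ Finset.range M, (V i - S)‖ ≤ 2 * M ^ 2 := by
    calc _ ≤ ∑ i ∈ Finset.range M, (2 * (M : ℝ)) := by
          refine norm_sum_le_of_le _ fun i hi => (h0 i).trans ?_
          have : (i : ℝ) ≤ M := by exact_mod_cast (Finset.mem_range.1 hi).le
          linarith
      _ = 2 * M ^ 2 := by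
          rw [Finset.sum_const, Finset.card_range, nsmul_eq_mul]
          ring
  calc (M : ℝ) * ‖S‖ = ‖(M : ℂ) * S‖ := by rw [norm_mul, Complex.norm_natCast]
    _ ≤ ‖∑ i ∈ Finset.range M, V i‖ + ‖∑ i ∈ Finset.range M, (V i - S)‖ := by
        rw [h2]
        exact norm_sub_le _ _
    _ ≤ _ := by
        refine add_le_add ?_ h3
        rw [← h1]
        exact norm_sum_le _ _

theorem avg_sum (u : ℕ → ℂ) (hu : ∀ n, ‖u n‖ ≤ 1) (M w x : ℕ) (hw : w ≤ x) :
    (M : ℝ) * ∑ y ∈ Finset.range x, ‖∑ n ∈ Finset.Ioc y (y + w), u n‖ ≤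
      w * ∑ z ∈ Finset.range (2 * x), ‖∑ n ∈ Finset.Ioc z (z + M), u n‖ + x * (2 * M ^ 2) := by
  rw [Finset.mul_sum]
  calc _ ≤ ∑ y ∈ Finset.range x, (∑ z ∈ Finset.range w,
        ‖∑ n ∈ Finset.Ioc (z + y) (z + y + M), u n‖ + 2 * (M : ℝ) ^ 2) :=
        Finset.sum_le_sum fun y _ => avg_one u hu M w y
    _ = ∑ z ∈ Finset.range w, ∑ y ∈ Finset.range x,
          ‖∑ n ∈ Finset.Ioc (z + y) (z + y + M), u n‖ + x * (2 * (M : ℝ) ^ 2) := by
        rw [Finset.sum_add_distrib, Finset.sum_comm, Finset.sum_const, Finset.card_range,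
          nsmul_eq_mul]
    _ ≤ _ := by
        refine add_le_add ?_ le_rfl
        calc _ ≤ ∑ z ∈ Finset.range w, ∑ z ∈ Finset.range (2 * x),
              ‖∑ n ∈ Finset.Ioc z (z + M), u n‖ := by
              refine Finset.sum_le_sum fun z hz => ?_
              rw [Finset.mem_range] at hz
              have e : ∑ y ∈ Finset.range x, ‖∑ n ∈ Finset.Ioc (z + y) (z + y + M), u n‖ =
                  ∑ m ∈ Finset.Ico z (z + x), ‖∑ n ∈ Finset.Ioc m (m + M), u n‖ := by
                rw [Finset.sum_Ico_eq_sum_range, Nat.add_sub_cancel_left]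
              rw [e]
              refine Finset.sum_le_sum_of_subset_of_nonneg ?_ fun _ _ _ => norm_nonneg _
              intro m hm
              rw [Finset.mem_Ico] at hm
              rw [Finset.mem_range]
              omega
          _ = _ := by rw [Finset.sum_const, Finset.card_range, nsmul_eq_mul]

open Classical in
/-- one good length of the windows suffices for all larger lengths -/
theorem unif {ι : Type} (B : Finset ι) (T : ℝ) (hT : (B.card : ℝ) ≤ T) (u : ι → ℕ → ℂ)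
    (hu : ∀ h n, ‖u h n‖ ≤ 1) (ε κ : ℝ) (hε : 0 < ε) (hκ : 0 < κ) (h1 : κ ≤ ε / 2)
    (h2 : κ ≤ ε ^ 2 / 2) (M x C : ℕ) (hM : 1 ≤ M) (hx : 1 ≤ x) (hCx : C ≤ x)
    (hC : 2 * (M : ℝ) ≤ κ * C)
    (hbad : (((B ×ˢ Finset.range (2 * x)).filter (fun t =>
      ε * κ / 4 * M < ‖∑ n ∈ Finset.Ioc t.2 (t.2 + M), u t.1 n‖)).card : ℝ) ≤
        ε * κ / 4 * (((2 * x : ℕ) : ℝ) * T)) :
    ((B.filter (fun h => ε * x < ‖∑ n ∈ Finset.Icc 1 x, u h n‖ ∨
      ∃ w : ℕ, C ≤ w ∧ w ≤ x ∧ ε * x < ((Finset.range x).filter (fun y =>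
        ε * w < ‖∑ n ∈ Finset.Ioc y (y + w), u h n‖)).card)).card : ℝ) ≤ ε * T := by
  have hMR : (0 : ℝ) < M := by exact_mod_cast hM
  have hxR : (0 : ℝ) < x := by exact_mod_cast hx
  have hT0 : 0 ≤ T := (Nat.cast_nonneg _).trans hT
  set G : ι → ℝ := fun h => ∑ z ∈ Finset.range (2 * x), ‖∑ n ∈ Finset.Ioc z (z + M), u h n‖
    with hG
  have hG0 : ∀ h, 0 ≤ G h := fun h => Finset.sum_nonneg fun _ _ => norm_nonneg _
  -- the first moment
  have hsum : ∑ h ∈ B, G h ≤ ε * κ * (M * (x * T)) := by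
    set N : Finset (ι × ℕ) := (B ×ˢ Finset.range (2 * x)).filter (fun t =>
      ε * κ / 4 * M < ‖∑ n ∈ Finset.Ioc t.2 (t.2 + M), u t.1 n‖) with hN
    have e1 : ∑ h ∈ B, G h = ∑ t ∈ B ×ˢ Finset.range (2 * x),
        ‖∑ n ∈ Finset.Ioc t.2 (t.2 + M), u t.1 n‖ := by
      rw [Finset.sum_product]
    have e2 : ∀ t ∈ B ×ˢ Finset.range (2 * x), ‖∑ n ∈ Finset.Ioc t.2 (t.2 + M), u t.1 n‖ ≤
        ε * κ / 4 * M + (if ε * κ / 4 * M < ‖∑ n ∈ Finset.Ioc t.2 (t.2 + M), u t.1 n‖
          then (M : ℝ) else 0) := by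
      intro t _
      split_ifs with h3
      · have h4 : ‖∑ n ∈ Finset.Ioc t.2 (t.2 + M), u t.1 n‖ ≤ M := by
          calc _ ≤ ∑ n ∈ Finset.Ioc t.2 (t.2 + M), (1 : ℝ) :=
                norm_sum_le_of_le _ fun n _ => hu _ _
            _ = M := by
                rw [Finset.sum_const, Nat.card_Ioc, Nat.add_sub_cancel_left, nsmul_eq_mul,
                  mul_one]
        have h5 : 0 ≤ ε * κ / 4 * M := by positivity
        linarith
      · rw [add_zero]
        exact not_lt.1 h3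
    rw [e1]
    refine (Finset.sum_le_sum e2).trans ?_
    rw [Finset.sum_add_distrib, Finset.sum_const, ← Finset.sum_filter, Finset.sum_const,
      nsmul_eq_mul, nsmul_eq_mul, Finset.card_product, Finset.card_range]
    have h6 : ((B.card * (2 * x) : ℕ) : ℝ) ≤ 2 * x * T := by
      push_cast
      nlinarith
    calc ((B.card * (2 * x) : ℕ) : ℝ) * (ε * κ / 4 * M) + (N.card : ℝ) * M
        ≤ 2 * x * T * (ε * κ / 4 * M) + (ε * κ / 4 * (((2 * x : ℕ) : ℝ) * T)) * M := by
          gcongr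
      _ = _ := by
          push_cast
          ring
  have hmark : ((B.filter (fun h => κ * (M * x) < G h)).card : ℝ) ≤ ε * T := by
    have h3 : ((B.filter (fun h => κ * (M * x) < G h)).card : ℝ) * (κ * (M * x)) ≤
        ∑ h ∈ B, G h := by
      rw [← nsmul_eq_mul, ← Finset.sum_const]
      refine (Finset.sum_le_sum fun h hh => ?_).trans
        (Finset.sum_le_sum_of_subset_of_nonneg (Finset.filter_subset _ _) fun h _ _ => hG0 h)
      exact (Finset.mem_filter.1 hh).2.le
    have hp : (0 : ℝ) < κ * (M * x) := by positivity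
    refine le_of_mul_le_mul_right ((h3.trans hsum).trans (le_of_eq ?_)) hp
    ring
  refine (Nat.cast_le.2 (Finset.card_le_card ?_)).trans hmark
  intro h hh
  rw [Finset.mem_filter] at hh ⊢
  refine ⟨hh.1, ?_⟩
  by_contra hcon
  push Not at hcon
  have hCxR : (C : ℝ) ≤ x := by exact_mod_cast hCx
  rcases hh.2 with h3 | ⟨w, hw1, hw2, h3⟩
  · have h4 := avg_one (u h) (hu h) M x 0
    have e1 : Finset.Ioc 0 (0 + x) = Finset.Icc 1 x := by
      ext n
      rw [Finset.mem_Ioc, Finset.mem_Icc]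
      omega
    rw [e1] at h4
    have h5 : ∑ z ∈ Finset.range x, ‖∑ n ∈ Finset.Ioc (z + 0) (z + 0 + M), u h n‖ ≤ G h := by
      simp only [add_zero]
      refine Finset.sum_le_sum_of_subset_of_nonneg ?_ fun _ _ _ => norm_nonneg _
      intro z hz
      rw [Finset.mem_range] at hz ⊢
      omega
    have h6 : (M : ℝ) * ‖∑ n ∈ Finset.Icc 1 x, u h n‖ ≤ M * (κ * x + 2 * M) := by
      calc _ ≤ κ * (M * x) + 2 * M ^ 2 := h4.trans (add_le_add (h5.trans hcon) le_rfl)
        _ = _ := by ring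
    have h7 := le_of_mul_le_mul_left h6 hMR
    have h8 : κ * C ≤ κ * x := by gcongr
    have h9 : κ * x ≤ ε / 2 * x := by gcongr
    linarith
  · have hwR : (0 : ℝ) < w := by
      have h4 : (0 : ℝ) < κ * C := lt_of_lt_of_le (by positivity) hC
      have h5 : (0 : ℝ) < C := by
        by_contra h6
        push Not at h6
        nlinarith
      have h6 : (C : ℝ) ≤ w := by exact_mod_cast hw1
      linarith
    have h4 := avg_sum (u h) (hu h) M w x hw2
    have h5 : (((Finset.range x).filter (fun y =>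
        ε * w < ‖∑ n ∈ Finset.Ioc y (y + w), u h n‖)).card : ℝ) * (ε * w) ≤
        ∑ y ∈ Finset.range x, ‖∑ n ∈ Finset.Ioc y (y + w), u h n‖ := by
      rw [← nsmul_eq_mul, ← Finset.sum_const]
      refine (Finset.sum_le_sum fun y hy => ?_).trans
        (Finset.sum_le_sum_of_subset_of_nonneg (Finset.filter_subset _ _)
          fun y _ _ => norm_nonneg _)
      exact (Finset.mem_filter.1 hy).2.le
    have h6 : (M : ℝ) * ∑ y ∈ Finset.range x, ‖∑ n ∈ Finset.Ioc y (y + w), u h n‖ ≤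
        M * (ε * x * (ε * w)) := by
      have h7 : κ * C ≤ κ * w := by
        have : (C : ℝ) ≤ w := by exact_mod_cast hw1
        gcongr
      calc _ ≤ (w : ℝ) * (κ * (M * x)) + x * (2 * M ^ 2) :=
            h4.trans (add_le_add (mul_le_mul_of_nonneg_left hcon hwR.le) le_rfl)
        _ = M * x * (κ * w + 2 * M) := by ring
        _ ≤ M * x * (ε ^ 2 / 2 * w + ε ^ 2 / 2 * w) := by
            have h8 : κ * w ≤ ε ^ 2 / 2 * w := by gcongr
            have h9 : 2 * (M : ℝ) ≤ ε ^ 2 / 2 * w := by linarith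
            gcongr
        _ = _ := by ring
    have h7 := le_of_mul_le_mul_left h6 hMR
    have hp : (0 : ℝ) < ε * w := by positivity
    have h8 := le_of_mul_le_mul_right (h5.trans h7) hp
    linarith

end Pool.Agent.PAT
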