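import Mathlib
import Pool.Agent.Lib_helper65.PAT.G

/-!
# PAT: the final forms, uniform in the length of the windows (MP_892e4c_nt)
-/

set_option autoImplicit false

namespace Pool.Agent.PAT

open Pool.Agent.PS

theorem scale {C₀ e d j x H C : ℕ} (hC : C₀ * 2 ^ e ≤ C) (hC' : C₀ * 2 ^ d ≤ C)
    (h1 : C * x ^ e ≤ H) (h2 : C * x ^ d ≤ H * x ^ j) :
    C₀ * (2 * x) ^ e ≤ H ∧ C₀ * (2 * x) ^ d ≤ H * (2 * x) ^ j := by
  constructor
  · calc C₀ * (2 * x) ^ e = C₀ * 2 ^ e * x ^ e := by rw [mul_pow]; ring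
      _ ≤ C * x ^ e := Nat.mul_le_mul_right _ hC
      _ ≤ H := h1
  · calc C₀ * (2 * x) ^ d = C₀ * 2 ^ d * x ^ d := by rw [mul_pow]; ring
      _ ≤ C * x ^ d := Nat.mul_le_mul_right _ hC'
      _ ≤ H * x ^ j := h2
      _ ≤ H * (2 * x) ^ j := Nat.mul_le_mul_left _ (Nat.pow_le_pow_left (by omega) _)

open Classical in
/-- the correlations: the sum up to `x` and the sums over almost all windows of every length -/
theorem g_excl (f : Polynomial ℤ) (j s : ℕ) (a : Fin s → ℤ) (ha : ∀ i, a i ≠ 0)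
    (hj : 2 * s + 1 ≤ j) (ε : ℝ) (hε : 0 < ε) :
    ∃ C : ℕ, ∀ x H : ℕ, C ≤ x → C * x ^ (2 * s + 1) ≤ H →
      C * x ^ (f.natDegree - 1) ≤ H * x ^ j →
      ∀ Ψ : ℕ → (Fin s → ℤ) → ℂ, (∀ n v, ‖Ψ n v‖ ≤ 1) →
      (((bx j H).filter (fun h =>
        ε * x < ‖∑ n ∈ Finset.Icc 1 x,
          (lz (Pv f h n) : ℂ) * Ψ n (fun i => hv h ((n : ℤ) + a i))‖ ∨
        ∃ w : ℕ, C ≤ w ∧ w ≤ x ∧ ε * x < ((Finset.range x).filter (fun y =>
          ε * w < ‖∑ n ∈ Finset.Ioc y (y + w),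
            (lz (Pv f h n) : ℂ) * Ψ n (fun i => hv h ((n : ℤ) + a i))‖)).card)).card : ℝ) ≤
        ε * (2 * H + 1) ^ (j + 1) := by
  set κ : ℝ := min (ε / 2) (ε ^ 2 / 2) with hκ
  have hκp : 0 < κ := lt_min (by positivity) (by positivity)
  have hκ1 : κ ≤ ε / 2 := min_le_left _ _
  have hκ2 : κ ≤ ε ^ 2 / 2 := min_le_right _ _
  obtain ⟨C₀, hC₀⟩ := w_pairs f j s a ha hj (ε * κ / 4) (by positivity)
  obtain ⟨M, hM⟩ : ∃ M : ℕ, M = C₀ + 1 := ⟨_, rfl⟩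
  obtain ⟨E1, hE1⟩ : ∃ E1 : ℕ, E1 = C₀ * 2 ^ (2 * s + 1) := ⟨_, rfl⟩
  obtain ⟨E2, hE2⟩ : ∃ E2 : ℕ, E2 = C₀ * 2 ^ (f.natDegree - 1) := ⟨_, rfl⟩
  obtain ⟨C, hC⟩ : ∃ C : ℕ, C = M + ⌈2 * (M : ℝ) / κ⌉₊ + E1 + E2 := ⟨_, rfl⟩
  refine ⟨C, fun x H hx hH hd Ψ hΨ => ?_⟩
  obtain ⟨g1, g2⟩ := scale (C₀ := C₀) (by rw [← hE1]; omega) (by rw [← hE2]; omega) hH hd
  have h1 := hC₀ (2 * x) H M (by omega) (by omega) g1 g2 Ψ hΨ
  have hCR : 2 * (M : ℝ) ≤ κ * C := by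
    have h3 : 2 * (M : ℝ) / κ ≤ (C : ℝ) :=
      (Nat.le_ceil _).trans (Nat.cast_le.2 (by omega))
    rw [div_le_iff₀ hκp] at h3
    linarith
  refine unif (bx j H) ((2 * H + 1) ^ (j + 1)) ?_ (fun h n =>
    (lz (Pv f h n) : ℂ) * Ψ n (fun i => hv h ((n : ℤ) + a i))) ?_ ε κ hε hκp hκ1 hκ2 M x C
    (by omega) (by omega) hx hCR h1
  · rw [bx_card]
    push_cast
    exact le_refl _
  · intro h n
    rw [norm_mul]
    exact mul_le_one₀ (lz_norm _) (norm_nonneg _) (hΨ _ _)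

open Classical in
/-- the indicator of a sign pattern minus its expected frequency -/
noncomputable def pu (f : Polynomial ℤ) {j k : ℕ} (b : Fin k → ℤ) (σ : Fin k → ℝ)
    (h : Fin (j + 1) → ℤ) (n : ℕ) : ℂ :=
  (((if ∀ i, lz (pz f h ((n : ℤ) + b i)) = σ i then 1 else 0) - 1 / 2 ^ k : ℝ) : ℂ)

theorem pu_le (f : Polynomial ℤ) {j k : ℕ} (b : Fin k → ℤ) (σ : Fin k → ℝ)
    (h : Fin (j + 1) → ℤ) (n : ℕ) : ‖pu f b σ h n‖ ≤ 1 := by
  unfold pu
  rw [Complex.norm_real, Real.norm_eq_abs, abs_le]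
  have h1 : (0 : ℝ) < 1 / 2 ^ k := by positivity
  have h2 : (1 : ℝ) / 2 ^ k ≤ 1 := by
    rw [div_le_one (by positivity)]
    exact one_le_pow₀ (by norm_num)
  split_ifs <;> constructor <;> linarith

theorem pu_sum (f : Polynomial ℤ) {j k : ℕ} (b : Fin k → ℤ) (σ : Fin k → ℝ)
    (h : Fin (j + 1) → ℤ) (S : Finset ℕ) :
    ‖∑ n ∈ S, pu f b σ h n‖ = |pc f h b σ S - S.card / 2 ^ k| := by
  classical
  unfold pu pc
  rw [← Complex.ofReal_sum, Complex.norm_real, Real.norm_eq_abs, Finset.sum_sub_distrib,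
    Finset.sum_const, nsmul_eq_mul, Finset.card_filter, Nat.cast_sum]
  congr 2
  · refine Finset.sum_congr rfl fun n _ => ?_
    split_ifs <;> simp
  · ring

open Classical in
/-- all sign patterns, up to `x` and in almost all windows of every length -/
theorem g_pat (f : Polynomial ℤ) (j k : ℕ) (b : Fin k → ℤ) (hb : Function.Injective b)
    (hk : 2 * k ≤ j + 1) (ε : ℝ) (hε : 0 < ε) :
    ∃ C : ℕ, ∀ x H : ℕ, C ≤ x → C * x ^ (2 * k - 1) ≤ H →
      C * x ^ (f.natDegree - 1) ≤ H * x ^ j →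
      (((bx j H).filter (fun h =>
        (∃ σ : Fin k → ℝ, (∀ i, σ i = 1 ∨ σ i = -1) ∧
          ε * x < |pc f h b σ (Finset.Icc 1 x) - x / 2 ^ k|) ∨
        ∃ w : ℕ, C ≤ w ∧ w ≤ x ∧ ε * x < ((Finset.range x).filter (fun y =>
          ∃ σ : Fin k → ℝ, (∀ i, σ i = 1 ∨ σ i = -1) ∧
            ε * w < |pc f h b σ (Finset.Ioc y (y + w)) - w / 2 ^ k|)).card)).card : ℝ) ≤
        ε * (2 * H + 1) ^ (j + 1) := by
  set ε' : ℝ := ε / 2 ^ k with hε'
  have hε'p : 0 < ε' := by positivity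
  have hε'1 : ε' ≤ ε := div_le_self hε.le (one_le_pow₀ (by norm_num))
  have hε'2 : 2 ^ k * ε' = ε := by rw [hε']; field_simp
  set κ : ℝ := min (ε' / 2) (ε' ^ 2 / 2) with hκ
  have hκp : 0 < κ := lt_min (by positivity) (by positivity)
  have hκ1 : κ ≤ ε' / 2 := min_le_left _ _
  have hκ2 : κ ≤ ε' ^ 2 / 2 := min_le_right _ _
  have h0 := fun β : Fin k → Bool => wc_main f j k b (sg β) hb (sg_pm β) hk (ε' * κ / 4)
    (by positivity)
  choose Cb hCb using h0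
  obtain ⟨M, hM⟩ : ∃ M : ℕ, M = ∑ β, Cb β + 1 := ⟨_, rfl⟩
  obtain ⟨E1, hE1⟩ : ∃ E1 : ℕ, E1 = M * 2 ^ (2 * k - 1) := ⟨_, rfl⟩
  obtain ⟨E2, hE2⟩ : ∃ E2 : ℕ, E2 = M * 2 ^ (f.natDegree - 1) := ⟨_, rfl⟩
  obtain ⟨C, hC⟩ : ∃ C : ℕ, C = M + ⌈2 * (M : ℝ) / κ⌉₊ + E1 + E2 := ⟨_, rfl⟩
  refine ⟨C, fun x H hx hH hd => ?_⟩
  have hCβ : ∀ β, Cb β ≤ M := fun β =>
    (Finset.single_le_sum (f := Cb) (fun _ _ => Nat.zero_le _) (Finset.mem_univ β)).trans
      (by omega)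
  obtain ⟨g1, g2⟩ := scale (C₀ := M) (by rw [← hE1]; omega) (by rw [← hE2]; omega) hH hd
  have hCR : 2 * (M : ℝ) ≤ κ * C := by
    have h3 : 2 * (M : ℝ) / κ ≤ (C : ℝ) :=
      (Nat.le_ceil _).trans (Nat.cast_le.2 (by omega))
    rw [div_le_iff₀ hκp] at h3
    linarith
  have hTc : ((bx j H).card : ℝ) ≤ (2 * H + 1) ^ (j + 1) := by
    rw [bx_card]
    push_cast
    exact le_refl _
  -- the exceptional set of one pattern
  set Bad : (Fin k → Bool) → Finset (Fin (j + 1) → ℤ) := fun β => (bx j H).filter (fun h =>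
    ε' * x < ‖∑ n ∈ Finset.Icc 1 x, pu f b (sg β) h n‖ ∨
      ∃ w : ℕ, C ≤ w ∧ w ≤ x ∧ ε' * x < ((Finset.range x).filter (fun y =>
        ε' * w < ‖∑ n ∈ Finset.Ioc y (y + w), pu f b (sg β) h n‖)).card) with hBad
  have hbad : ∀ β, ((Bad β).card : ℝ) ≤ ε' * (2 * H + 1) ^ (j + 1) := by
    intro β
    have h1 := hCb β (2 * x) H M (hCβ β) (by omega)
      ((Nat.mul_le_mul_right _ (hCβ β)).trans g1) ((Nat.mul_le_mul_right _ (hCβ β)).trans g2)
    refine unif (bx j H) ((2 * H + 1) ^ (j + 1)) hTc (fun h n => pu f b (sg β) h n)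
      (fun h n => pu_le f b (sg β) h n) ε' κ hε'p hκp hκ1 hκ2 M x C
      (by omega) (by omega) hx hCR ?_
    refine le_trans (le_of_eq ?_) h1
    congr 2
    refine Finset.filter_congr fun t _ => ?_
    rw [pu_sum, Nat.card_Ioc, Nat.add_sub_cancel_left]
  have hsub : (bx j H).filter (fun h =>
        (∃ σ : Fin k → ℝ, (∀ i, σ i = 1 ∨ σ i = -1) ∧
          ε * x < |pc f h b σ (Finset.Icc 1 x) - x / 2 ^ k|) ∨
        ∃ w : ℕ, C ≤ w ∧ w ≤ x ∧ ε * x < ((Finset.range x).filter (fun y =>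
          ∃ σ : Fin k → ℝ, (∀ i, σ i = 1 ∨ σ i = -1) ∧
            ε * w < |pc f h b σ (Finset.Ioc y (y + w)) - w / 2 ^ k|)).card) ⊆
      (Finset.univ : Finset (Fin k → Bool)).biUnion Bad := by
    intro h hh
    rw [Finset.mem_filter] at hh
    rw [Finset.mem_biUnion]
    by_contra hcon
    push Not at hcon
    have hn : ∀ β, ¬ (ε' * x < ‖∑ n ∈ Finset.Icc 1 x, pu f b (sg β) h n‖ ∨
      ∃ w : ℕ, C ≤ w ∧ w ≤ x ∧ ε' * x < ((Finset.range x).filter (fun y =>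
        ε' * w < ‖∑ n ∈ Finset.Ioc y (y + w), pu f b (sg β) h n‖)).card) := by
      intro β h5
      exact hcon β (Finset.mem_univ _) (by rw [hBad, Finset.mem_filter]; exact ⟨hh.1, h5⟩)
    rcases hh.2 with ⟨σ, hσ, h3⟩ | ⟨w, hw1, hw2, h3⟩
    · obtain ⟨β, rfl⟩ := sg_surj σ hσ
      refine hn β (Or.inl ?_)
      rw [pu_sum, Nat.card_Icc, Nat.add_sub_cancel]
      refine lt_of_le_of_lt ?_ h3
      gcongr
    · have h4 : ∀ β, (((Finset.range x).filter (fun y =>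
          ε' * w < ‖∑ n ∈ Finset.Ioc y (y + w), pu f b (sg β) h n‖)).card : ℝ) ≤ ε' * x := by
        intro β
        by_contra h5
        push Not at h5
        exact hn β (Or.inr ⟨w, hw1, hw2, h5⟩)
      have h5 : (Finset.range x).filter (fun y =>
          ∃ σ : Fin k → ℝ, (∀ i, σ i = 1 ∨ σ i = -1) ∧
            ε * w < |pc f h b σ (Finset.Ioc y (y + w)) - w / 2 ^ k|) ⊆
          (Finset.univ : Finset (Fin k → Bool)).biUnion (fun β => (Finset.range x).filter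
            (fun y => ε' * w < ‖∑ n ∈ Finset.Ioc y (y + w), pu f b (sg β) h n‖)) := by
        intro y hy
        rw [Finset.mem_filter] at hy
        obtain ⟨hy1, σ, hσ, h6⟩ := hy
        obtain ⟨β, rfl⟩ := sg_surj σ hσ
        rw [Finset.mem_biUnion]
        refine ⟨β, Finset.mem_univ _, Finset.mem_filter.2 ⟨hy1, ?_⟩⟩
        rw [pu_sum, Nat.card_Ioc, Nat.add_sub_cancel_left]
        refine lt_of_le_of_lt ?_ h6
        gcongr
      have h6 : (((Finset.range x).filter (fun y =>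
          ∃ σ : Fin k → ℝ, (∀ i, σ i = 1 ∨ σ i = -1) ∧
            ε * w < |pc f h b σ (Finset.Ioc y (y + w)) - w / 2 ^ k|)).card : ℝ) ≤ ε * x := by
        refine (Nat.cast_le.2 (Finset.card_le_card h5)).trans ?_
        refine (Nat.cast_le.2 Finset.card_biUnion_le).trans ?_
        rw [Nat.cast_sum]
        calc _ ≤ ∑ β : Fin k → Bool, ε' * x := Finset.sum_le_sum fun β _ => h4 β
          _ = 2 ^ k * ε' * x := by
              rw [Finset.sum_const, Finset.card_univ, Fintype.card_fun, Fintype.card_bool,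
                Fintype.card_fin, nsmul_eq_mul]
              push_cast
              ring
          _ = ε * x := by rw [hε'2]
      linarith
  refine (Nat.cast_le.2 (Finset.card_le_card hsub)).trans ?_
  refine (Nat.cast_le.2 Finset.card_biUnion_le).trans ?_
  rw [Nat.cast_sum]
  calc _ ≤ ∑ β : Fin k → Bool, ε' * (2 * (H : ℝ) + 1) ^ (j + 1) :=
        Finset.sum_le_sum fun β _ => hbad β
    _ = 2 ^ k * ε' * (2 * (H : ℝ) + 1) ^ (j + 1) := by
        rw [Finset.sum_const, Finset.card_univ, Fintype.card_fun, Fintype.card_bool,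
          Fintype.card_fin, nsmul_eq_mul]
        push_cast
        ring
    _ = _ := by rw [hε'2]

end Pool.Agent.PAT
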